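import Mathlib
import Pool.Agent.R234.UC.K

/-! Rotations, characters and monomials. -/

set_option autoImplicit false

open MeasureTheory Metric Set Filter Topology Complex

namespace Pool.Agent.R234.HK

/-- the torus -/
abbrev Tn (n : ℕ) := Fin n → AddCircle (1 : ℝ)

variable {n : ℕ}

/-- normalised Haar measure of the torus -/
noncomputable def muT (n : ℕ) : Measure (Tn n) := Measure.pi (fun _ => AddCircle.haarAddCircle)

instance : IsProbabilityMeasure (muT n) := by
  unfold muT
  infer_instance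

instance : (muT n).IsAddLeftInvariant := by
  unfold muT
  infer_instance

instance : (muT n).IsOpenPosMeasure := by
  unfold muT
  infer_instance

/-- characters -/
noncomputable def ch (κ : Fin n → ℤ) (t : Tn n) : ℂ := ∏ j, (fourier (κ j) (t j) : ℂ)

/-- rotation of the coordinates -/
noncomputable def rot (t : Tn n) (z : Fin n → ℂ) : Fin n → ℂ := fun j => (fourier 1 (t j) : ℂ) * z j

/-- monomials with integer exponents -/
noncomputable def mon (γ : Fin n → ℤ) (z : Fin n → ℂ) : ℂ := ∏ j, z j ^ γ j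

theorem fourier_norm (k : ℤ) (t : AddCircle (1 : ℝ)) : ‖(fourier k t : ℂ)‖ = 1 := by
  rw [fourier_apply]
  exact Circle.norm_coe _

theorem ch_norm (κ : Fin n → ℤ) (t : Tn n) : ‖ch κ t‖ = 1 := by
  unfold ch
  rw [norm_prod]
  simp only [fourier_norm, Finset.prod_const_one]

theorem ch_add (κ : Fin n → ℤ) (s t : Tn n) : ch κ (s + t) = ch κ s * ch κ t := by
  unfold ch
  rw [← Finset.prod_mul_distrib]
  refine Finset.prod_congr rfl fun j _ => ?_
  rw [Pi.add_apply, fourier_apply, fourier_apply, fourier_apply, smul_add,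
    AddCircle.toCircle_add, Circle.coe_mul]

theorem ch_add' (κ l : Fin n → ℤ) (t : Tn n) : ch (κ + l) t = ch κ t * ch l t := by
  unfold ch
  rw [← Finset.prod_mul_distrib]
  refine Finset.prod_congr rfl fun j _ => ?_
  rw [Pi.add_apply, fourier_add]

theorem ch_neg (κ : Fin n → ℤ) (t : Tn n) : ch (-κ) t = starRingEnd ℂ (ch κ t) := by
  unfold ch
  rw [map_prod]
  refine Finset.prod_congr rfl fun j _ => ?_
  rw [Pi.neg_apply, fourier_neg]

theorem ch_zero (t : Tn n) : ch 0 t = 1 := by
  unfold ch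
  simp

theorem ch_neg_mul (κ : Fin n → ℤ) (t : Tn n) : ch (-κ) t * ch κ t = 1 := by
  rw [← ch_add', neg_add_cancel, ch_zero]

theorem ch_continuous (κ : Fin n → ℤ) : Continuous (ch κ) := by
  unfold ch
  fun_prop

theorem rot_continuous : Continuous fun p : Tn n × (Fin n → ℂ) => rot p.1 p.2 := by
  unfold rot
  fun_prop

theorem rot_continuous_left (z : Fin n → ℂ) : Continuous fun t : Tn n => rot t z := by
  unfold rot
  fun_prop

theorem rot_continuous_right (t : Tn n) : Continuous fun z : Fin n → ℂ => rot t z := by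
  unfold rot
  fun_prop

theorem rot_add (s t : Tn n) (z : Fin n → ℂ) : rot (s + t) z = rot s (rot t z) := by
  unfold rot
  funext j
  rw [Pi.add_apply, fourier_apply, fourier_apply, fourier_apply, smul_add,
    AddCircle.toCircle_add, Circle.coe_mul]
  ring

theorem rot_zero (z : Fin n → ℂ) : rot 0 z = z := by
  unfold rot
  funext j
  rw [Pi.zero_apply, fourier_eval_zero, one_mul]

theorem rot_norm_apply (t : Tn n) (z : Fin n → ℂ) (j : Fin n) : ‖rot t z j‖ = ‖z j‖ := by
  unfold rot
  rw [norm_mul, fourier_norm, one_mul]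

theorem rot_norm (t : Tn n) (z : Fin n → ℂ) : ‖rot t z‖ = ‖z‖ := by
  refine le_antisymm ?_ ?_
  · rw [pi_norm_le_iff_of_nonneg (norm_nonneg _)]
    intro j
    rw [rot_norm_apply]
    exact norm_le_pi_norm z j
  · rw [pi_norm_le_iff_of_nonneg (norm_nonneg _)]
    intro j
    rw [← rot_norm_apply t]
    exact norm_le_pi_norm (rot t z) j

theorem rot_sub (t : Tn n) (z w : Fin n → ℂ) : rot t (z - w) = rot t z - rot t w := by
  unfold rot
  funext j
  simp only [Pi.sub_apply]
  ring

theorem rot_dist (t : Tn n) (z w : Fin n → ℂ) : dist (rot t z) (rot t w) = dist z w := by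
  rw [dist_eq_norm, dist_eq_norm, ← rot_sub, rot_norm]

theorem mon_rot (γ : Fin n → ℤ) (t : Tn n) (z : Fin n → ℂ) :
    mon γ (rot t z) = ch γ t * mon γ z := by
  unfold mon ch rot
  rw [← Finset.prod_mul_distrib]
  refine Finset.prod_congr rfl fun j _ => ?_
  rw [mul_zpow]
  congr 1
  rw [fourier_apply, fourier_apply, one_smul, AddCircle.toCircle_zsmul, Circle.coe_zpow]

theorem mon_rot_norm (γ : Fin n → ℤ) (t : Tn n) (z : Fin n → ℂ) :
    ‖mon γ (rot t z)‖ = ‖mon γ z‖ := by
  rw [mon_rot, norm_mul, ch_norm, one_mul]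

theorem rot_mp (t : Tn n) : MeasurePreserving (rot t) volume volume := by
  have h : ∀ j : Fin n, MeasurePreserving (fun z : ℂ => (fourier 1 (t j) : ℂ) * z) volume volume :=
    fun j => Pool.Agent.R234.UC.unit_mp_C _ (fourier_norm 1 (t j))
  exact volume_preserving_pi h

/-- the linear map underlying a rotation -/
noncomputable def rotL (t : Tn n) : (Fin n → ℂ) →L[ℂ] (Fin n → ℂ) :=
  ContinuousLinearMap.pi fun j => (fourier 1 (t j) : ℂ) • ContinuousLinearMap.proj j

theorem rotL_apply (t : Tn n) (z : Fin n → ℂ) : rotL t z = rot t z := by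
  unfold rotL rot
  funext j
  simp

theorem rotL_norm (t : Tn n) : ‖rotL t‖ ≤ 1 := by
  refine ContinuousLinearMap.opNorm_le_bound _ zero_le_one fun z => ?_
  rw [rotL_apply, rot_norm, one_mul]

theorem rot_hasFDerivAt (t : Tn n) (z : Fin n → ℂ) : HasFDerivAt (rot t) (rotL t) z := by
  have h : rot t = fun z => rotL t z := by
    funext z
    rw [rotL_apply]
  rw [h]
  exact (rotL t).hasFDerivAt

/-- the homogeneous component of a function -/
noncomputable def comp (κ : Fin n → ℤ) (G : (Fin n → ℂ) → ℂ) (z : Fin n → ℂ) : ℂ :=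
  ∫ t, ch (-κ) t * G (rot t z) ∂(muT n)

theorem comp_rot (κ : Fin n → ℤ) (G : (Fin n → ℂ) → ℂ) (s : Tn n) (z : Fin n → ℂ) :
    comp κ G (rot s z) = ch κ s * comp κ G z := by
  unfold comp
  have h1 : ∀ t : Tn n, ch (-κ) t * G (rot t (rot s z)) =
      ch κ s * (ch (-κ) (t + s) * G (rot (t + s) z)) := by
    intro t
    rw [rot_add, ch_add, mul_comm (ch (-κ) t) (ch (-κ) s)]
    have := ch_neg_mul κ s
    linear_combination (-(ch (-κ) t * G (rot t (rot s z)))) * this
  simp_rw [h1]
  rw [integral_const_mul, integral_add_right_eq_self (fun t => ch (-κ) t * G (rot t z)) s]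

end Pool.Agent.R234.HK
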