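import Mathlib
import Pool.Agent.R234.HK.A

/-! Holomorphic functions on Reinhardt domains: homogeneous components are multiples of
monomials. -/

set_option autoImplicit false

open MeasureTheory Metric Set Filter Topology Complex

namespace Pool.Agent.R234.HK

theorem cauchy_fderiv {E : Type*} [NormedAddCommGroup E] [NormedSpace ℂ E] {G : E → ℂ}
    {Ω : Set E} (hΩ : IsOpen Ω) (hG : DifferentiableOn ℂ G Ω) {w : E} {ρ M : ℝ} (hρ : 0 < ρ)
    (hb : closedBall w ρ ⊆ Ω) (hM : ∀ x ∈ closedBall w ρ, ‖G x‖ ≤ M) :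
    ‖fderiv ℂ G w‖ ≤ M / ρ := by
  have hM0 : 0 ≤ M := (norm_nonneg _).trans (hM w (mem_closedBall_self hρ.le))
  refine ContinuousLinearMap.opNorm_le_bound _ (by positivity) fun v => ?_
  rcases eq_or_ne v 0 with rfl | hv
  · simp
  have hv0 : 0 < ‖v‖ := norm_pos_iff.2 hv
  set φ : ℂ → ℂ := fun l => G (w + l • v) with hφ
  have hmem : ∀ l ∈ closedBall (0 : ℂ) (ρ / ‖v‖), w + l • v ∈ closedBall w ρ := by
    intro l hl
    rw [mem_closedBall_zero_iff] at hl
    rw [mem_closedBall, dist_self_add_left, norm_smul]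
    calc ‖l‖ * ‖v‖ ≤ ρ / ‖v‖ * ‖v‖ := mul_le_mul_of_nonneg_right hl hv0.le
      _ = ρ := by field_simp
  have hlin : ∀ l : ℂ, HasDerivAt (fun l : ℂ => w + l • v) v l := by
    intro l
    have := ((hasDerivAt_id l).smul_const v).const_add w
    simpa using this
  have hd : ∀ l ∈ closedBall (0 : ℂ) (ρ / ‖v‖),
      HasDerivAt φ (fderiv ℂ G (w + l • v) v) l := by
    intro l hl
    have h1 : HasFDerivAt G (fderiv ℂ G (w + l • v)) (w + l • v) :=
      (hG.differentiableAt (hΩ.mem_nhds (hb (hmem l hl)))).hasFDerivAt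
    exact h1.comp_hasDerivAt l (hlin l)
  have hdc : DiffContOnCl ℂ φ (ball 0 (ρ / ‖v‖)) := by
    refine DifferentiableOn.diffContOnCl ?_
    intro l hl
    exact (hd l (closure_ball_subset_closedBall hl)).differentiableAt.differentiableWithinAt
  have h2 := Complex.norm_deriv_le_of_forall_mem_sphere_norm_le (C := M) (by positivity) hdc
    (fun l hl => hM _ (hmem l (sphere_subset_closedBall hl)))
  rw [(hd 0 (mem_closedBall_self (by positivity))).deriv, zero_smul, add_zero] at h2
  calc ‖fderiv ℂ G w v‖ ≤ M / (ρ / ‖v‖) := h2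
    _ = M / ρ * ‖v‖ := by field_simp

theorem ident {E : Type*} [NormedAddCommGroup E] [NormedSpace ℂ E] {G : E → ℂ}
    {Ω : Set E} (hΩ : IsOpen Ω) (hc : IsPreconnected Ω) (hG : DifferentiableOn ℂ G Ω) {p : E}
    (hp : p ∈ Ω) (h0 : G =ᶠ[𝓝 p] fun _ => 0) : ∀ z ∈ Ω, G z = 0 := by
  set S : Set E := {z | G =ᶠ[𝓝 z] fun _ => 0} with hS
  have hSo : IsOpen S := isOpen_setOfPred_eventually_nhds
  have hcl : closure S ∩ Ω ⊆ S := by
    rintro x ⟨hx1, hx2⟩
    obtain ⟨r, hr, hb⟩ := Metric.isOpen_iff.1 hΩ x hx2
    obtain ⟨y, hyS, hyx⟩ := Metric.mem_closure_iff.1 hx1 r hr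
    have hyb : y ∈ ball x r := by rwa [mem_ball, dist_comm]
    have hz : ∀ z ∈ ball x r, G z = 0 := by
      intro z hz
      set φ : ℂ → ℂ := fun l => G (y + l • (z - y)) with hφ
      set U : Set ℂ := {l | y + l • (z - y) ∈ ball x r} with hU
      have hcont : Continuous fun l : ℂ => y + l • (z - y) := by fun_prop
      have hUo : IsOpen U := isOpen_ball.preimage hcont
      have hUc : IsPreconnected U := by
        have hconv : Convex ℝ U := by
          intro a ha b hb s t hs ht hst
          have h1 := convex_ball x r ha hb hs ht hst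
          have h2 : y + (s • a + t • b) • (z - y) =
              s • (y + a • (z - y)) + t • (y + b • (z - y)) := by
            have h3 : (s : ℂ) + (t : ℂ) = 1 := by exact_mod_cast hst
            rw [← Complex.coe_smul s, ← Complex.coe_smul t, ← Complex.coe_smul s,
              ← Complex.coe_smul t]
            linear_combination (norm := module) (-1 * h3) • y
          show y + (s • a + t • b) • (z - y) ∈ ball x r
          rw [h2]
          exact h1
        exact hconv.isPreconnected
      have hφd : DifferentiableOn ℂ φ U := by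
        intro l hl
        have h1 : DifferentiableAt ℂ G (y + l • (z - y)) :=
          hG.differentiableAt (hΩ.mem_nhds (hb hl))
        have h2 : DifferentiableAt ℂ (fun l : ℂ => y + l • (z - y)) l := by fun_prop
        exact (h1.comp l h2).differentiableWithinAt
      have han : AnalyticOnNhd ℂ φ U := hφd.analyticOnNhd hUo
      have h0U : (0 : ℂ) ∈ U := by
        show y + (0 : ℂ) • (z - y) ∈ ball x r
        rwa [zero_smul, add_zero]
      have h1U : (1 : ℂ) ∈ U := by
        show y + (1 : ℂ) • (z - y) ∈ ball x r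
        rw [one_smul, add_sub_cancel]
        exact hz
      have hev : φ =ᶠ[𝓝 0] 0 := by
        have ht : Tendsto (fun l : ℂ => y + l • (z - y)) (𝓝 0) (𝓝 y) := by
          have := hcont.tendsto 0
          rwa [zero_smul, add_zero] at this
        exact ht.eventually hyS
      have := han.eqOn_of_preconnected_of_eventuallyEq
        (g := 0) (fun _ _ => analyticAt_const) hUc h0U hev h1U
      have h3 : φ 1 = G z := by
        rw [hφ]
        simp only
        rw [one_smul, add_sub_cancel]
      rw [← h3]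
      exact this
    show G =ᶠ[𝓝 x] fun _ => 0
    filter_upwards [ball_mem_nhds x hr] with z hz'
    exact hz z hz'
  have hsub := hc.subset_of_closure_inter_subset hSo ⟨p, hp, h0⟩ hcl
  intro z hz
  exact (hsub hz).self_of_nhds

variable {n : ℕ}

/-- invariance under the rotations -/
def Rein (Ω : Set (Fin n → ℂ)) : Prop := ∀ t : Tn n, ∀ z ∈ Ω, rot t z ∈ Ω

theorem comp_diff {Ω : Set (Fin n → ℂ)} (hΩ : IsOpen Ω) (hR : Rein Ω) {G : (Fin n → ℂ) → ℂ}
    (hG : DifferentiableOn ℂ G Ω) (κ : Fin n → ℤ) : DifferentiableOn ℂ (comp κ G) Ω := by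
  intro z₀ hz₀
  refine DifferentiableAt.differentiableWithinAt ?_
  -- compact orbit
  set K : Set (Fin n → ℂ) := range fun t : Tn n => rot t z₀ with hK
  have hKc : IsCompact K := isCompact_range (rot_continuous_left z₀)
  have hKΩ : K ⊆ Ω := by
    rintro _ ⟨t, rfl⟩
    exact hR t z₀ hz₀
  obtain ⟨δ, hδ, hδΩ⟩ := hKc.exists_cthickening_subset_open hΩ hKΩ
  have hcomp : IsCompact (cthickening δ K) := hKc.cthickening
  obtain ⟨M, hM⟩ := hcomp.exists_bound_of_continuousOn (hG.continuousOn.mono hδΩ)
  have hsub : ∀ t : Tn n, ∀ z ∈ ball z₀ (δ / 2), closedBall (rot t z) (δ / 2) ⊆ cthickening δ K := by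
    intro t z hz w hw
    refine mem_cthickening_of_dist_le w (rot t z₀) δ K ⟨t, rfl⟩ ?_
    rw [mem_closedBall] at hw
    rw [mem_ball] at hz
    have h1 := dist_triangle w (rot t z) (rot t z₀)
    rw [rot_dist] at h1
    linarith
  set F : (Fin n → ℂ) → Tn n → ℂ := fun z t => ch (-κ) t * G (rot t z) with hF
  set F' : (Fin n → ℂ) → Tn n → (Fin n → ℂ) →L[ℂ] ℂ := fun z t =>
    ch (-κ) t • (fderiv ℂ G (rot t z)).comp (rotL t) with hF'
  have hcontF : ∀ z ∈ ball z₀ (δ / 2), Continuous (F z) := by
    intro z hz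
    refine (ch_continuous _).mul ?_
    refine hG.continuousOn.comp_continuous (rot_continuous_left z) fun t => ?_
    exact hδΩ (hsub t z hz (mem_closedBall_self (by positivity)))
  have hint : ∀ z ∈ ball z₀ (δ / 2), Integrable (F z) (muT n) := by
    intro z hz
    exact (hcontF z hz).integrable_of_hasCompactSupport
      (HasCompactSupport.of_compactSpace _)
  have hkey := hasFDerivAt_integral_of_dominated_of_fderiv_le (𝕜 := ℂ) (μ := muT n) (F := F)
    (F' := F') (x₀ := z₀) (s := ball z₀ (δ / 2)) (bound := fun _ => M / (δ / 2))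
    (ball_mem_nhds z₀ (by positivity))
    (by
      filter_upwards [ball_mem_nhds z₀ (half_pos hδ)] with z hz
      exact (hint z hz).1)
    (hint z₀ (mem_ball_self (by positivity)))
    (by
      have h1 : Measurable fun t : Tn n => fderiv ℂ G (rot t z₀) :=
        (measurable_fderiv ℂ G).comp (rot_continuous_left z₀).measurable
      have h2 : StronglyMeasurable fun t : Tn n => fderiv ℂ G (rot t z₀) := h1.stronglyMeasurable
      have h3 : Continuous fun t : Tn n => rotL t := by
        rw [continuous_clm_apply]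
        intro z
        simp_rw [rotL_apply]
        exact rot_continuous_left z
      have h4 : StronglyMeasurable fun t : Tn n => (fderiv ℂ G (rot t z₀)).comp (rotL t) := by
        have h5 : Continuous fun p : ((Fin n → ℂ) →L[ℂ] ℂ) × ((Fin n → ℂ) →L[ℂ] (Fin n → ℂ)) =>
          p.1.comp p.2 := by fun_prop
        exact h5.comp_stronglyMeasurable (h2.prodMk h3.stronglyMeasurable)
      exact ((ch_continuous (-κ)).stronglyMeasurable.smul h4).aestronglyMeasurable)
    (by
      refine Filter.Eventually.of_forall fun t z hz => ?_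
      rw [hF']
      simp only
      rw [norm_smul, ch_norm, one_mul]
      refine (ContinuousLinearMap.opNorm_comp_le _ _).trans ?_
      have h1 := cauchy_fderiv hΩ hG (half_pos hδ) ((hsub t z hz).trans hδΩ)
        (fun x hx => hM x (hsub t z hz hx))
      calc ‖fderiv ℂ G (rot t z)‖ * ‖rotL t‖ ≤ ‖fderiv ℂ G (rot t z)‖ * 1 :=
            mul_le_mul_of_nonneg_left (rotL_norm t) (norm_nonneg _)
        _ ≤ _ := by rw [mul_one]; exact h1)
    (integrable_const _)
    (by
      refine Filter.Eventually.of_forall fun t z hz => ?_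
      have h1 : HasFDerivAt G (fderiv ℂ G (rot t z)) (rot t z) :=
        (hG.differentiableAt (hΩ.mem_nhds
          (hδΩ (hsub t z hz (mem_closedBall_self (by positivity)))))).hasFDerivAt
      exact (h1.comp z (rot_hasFDerivAt t z)).const_smul (ch (-κ) t))
  exact hkey.differentiableAt

end Pool.Agent.R234.HK
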