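import Mathlib
import Pool.Agent.R234.HK.B

/-! Homogeneous components are multiples of monomials. -/

set_option autoImplicit false

open MeasureTheory Metric Set Filter Topology Complex

namespace Pool.Agent.R234.HK

variable {n : ℕ}

theorem mon_diff (γ : Fin n → ℤ) (z : Fin n → ℂ) (h : ∀ j, z j ≠ 0 ∨ 0 ≤ γ j) :
    DifferentiableAt ℂ (mon γ) z := by
  unfold mon
  have h1 : ∀ j, DifferentiableAt ℂ (fun z : Fin n → ℂ => z j ^ γ j) z := fun j =>
    (differentiableAt_apply j z).zpow (h j)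
  have h2 : ∀ S : Finset (Fin n), DifferentiableAt ℂ (fun z => ∏ j ∈ S, z j ^ γ j) z := by
    intro S
    induction S using Finset.induction_on with
    | empty => simp
    | insert a S ha ih =>
      simp_rw [Finset.prod_insert ha]
      exact (h1 a).mul ih
  exact h2 _

theorem mon_add (γ l : Fin n → ℤ) (z : Fin n → ℂ) (h : ∀ j, z j ≠ 0) :
    mon (γ + l) z = mon γ z * mon l z := by
  unfold mon
  rw [← Finset.prod_mul_distrib]
  refine Finset.prod_congr rfl fun j _ => ?_
  rw [Pi.add_apply, zpow_add₀ (h j)]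

theorem mon_ne_zero (γ : Fin n → ℤ) (z : Fin n → ℂ) (h : ∀ j, z j ≠ 0 ∨ γ j = 0) :
    mon γ z ≠ 0 := by
  unfold mon
  rw [Finset.prod_ne_zero_iff]
  intro j _
  rcases h j with h | h
  · exact zpow_ne_zero _ h
  · rw [h, zpow_zero]
    exact one_ne_zero

/-- the open part with non-vanishing coordinates -/
def st (Ω : Set (Fin n → ℂ)) : Set (Fin n → ℂ) := {z | z ∈ Ω ∧ ∀ j, z j ≠ 0}

theorem st_open {Ω : Set (Fin n → ℂ)} (hΩ : IsOpen Ω) : IsOpen (st Ω) := by
  have h : st Ω = Ω ∩ ⋂ j, {z | z j ≠ 0} := by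
    ext z
    simp [st]
  rw [h]
  refine hΩ.inter (isOpen_iInter_of_finite fun j => ?_)
  exact isOpen_ne.preimage (continuous_apply j)

/-- one can move all the coordinates outside a given set away from zero -/
theorem perturb {Ω : Set (Fin n → ℂ)} (hΩ : IsOpen Ω) {p : Fin n → ℂ} (hp : p ∈ Ω) :
    ∃ q ∈ Ω, ∀ j, q j ≠ 0 := by
  obtain ⟨r, hr, hb⟩ := Metric.isOpen_iff.1 hΩ p hp
  refine ⟨fun j => if p j = 0 then ((r / 2 : ℝ) : ℂ) else p j, hb ?_, fun j => ?_⟩
  · rw [mem_ball, dist_pi_lt_iff hr]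
    intro j
    by_cases h : p j = 0
    · simp only [h, if_true]
      rw [dist_zero_right, Complex.norm_real, Real.norm_of_nonneg (by positivity)]
      linarith
    · simp only [h, if_false, dist_self]
      exact hr
  · by_cases h : p j = 0
    · simp only [h, if_true]
      have : (r / 2 : ℝ) ≠ 0 := by positivity
      exact_mod_cast this
    · simp only [h, if_false]
      exact h

/-- one can move all the coordinates but one away from zero -/
theorem perturb' {Ω : Set (Fin n → ℂ)} (hΩ : IsOpen Ω) {p : Fin n → ℂ} (hp : p ∈ Ω) (k : Fin n) :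
    ∃ q ∈ Ω, q k = p k ∧ ∀ j, j ≠ k → q j ≠ 0 := by
  obtain ⟨r, hr, hb⟩ := Metric.isOpen_iff.1 hΩ p hp
  refine ⟨fun j => if p j = 0 ∧ j ≠ k then ((r / 2 : ℝ) : ℂ) else p j, hb ?_, ?_, fun j hj => ?_⟩
  · rw [mem_ball, dist_pi_lt_iff hr]
    intro j
    by_cases h : p j = 0 ∧ j ≠ k
    · rw [if_pos h, h.1, dist_zero_right, Complex.norm_real, Real.norm_of_nonneg (by positivity)]
      linarith
    · simp only [h, if_false, dist_self]
      exact hr
  · simp
  · by_cases h : p j = 0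
    · simp only [h, hj, ne_eq, not_false_eq_true, and_self, if_true]
      have : (r / 2 : ℝ) ≠ 0 := by positivity
      exact_mod_cast this
    · simp only [h, false_and, if_false]
      exact h

theorem rot_single (j : Fin n) (x : ℝ) (z : Fin n → ℂ) :
    rot (Pi.single j (x : AddCircle (1 : ℝ))) z =
      z + ((fourier 1 (x : AddCircle (1 : ℝ)) : ℂ) - 1) • (Pi.single j (z j) : Fin n → ℂ) := by
  funext i
  unfold rot
  by_cases h : i = j
  · subst h
    simp only [Pi.single_eq_same, Pi.add_apply, Pi.smul_apply, smul_eq_mul]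
    ring
  · simp [Pi.single_eq_of_ne h]

theorem fderiv_zero_of_inv {Q : (Fin n → ℂ) → ℂ} {z : Fin n → ℂ} (hz : ∀ j, z j ≠ 0)
    (hQ : DifferentiableAt ℂ Q z) (hinv : ∀ t : Tn n, Q (rot t z) = Q z) :
    fderiv ℂ Q z = 0 := by
  have hj : ∀ j, fderiv ℂ Q z (Pi.single j (1 : ℂ)) = 0 := by
    intro j
    set w : Fin n → ℂ := Pi.single j (z j) with hw
    have h1 : HasDerivAt (fun x : ℝ => (fourier 1 (x : AddCircle (1 : ℝ)) : ℂ))
        (2 * Real.pi * I) 0 := by
      have := hasDerivAt_fourier (T := (1 : ℝ)) 1 0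
      simpa using this
    have h2 : HasDerivAt (fun x : ℝ => z + ((fourier 1 (x : AddCircle (1 : ℝ)) : ℂ) - 1) • w)
        ((2 * Real.pi * I) • w) 0 := by
      exact ((h1.sub_const 1).smul_const w).const_add z
    have h0 : z + ((fourier 1 ((0 : ℝ) : AddCircle (1 : ℝ)) : ℂ) - 1) • w = z := by
      simp
    have h3 : HasFDerivAt Q ((fderiv ℂ Q z).restrictScalars ℝ)
        (z + ((fourier 1 ((0 : ℝ) : AddCircle (1 : ℝ)) : ℂ) - 1) • w) := by
      rw [h0]
      exact hQ.hasFDerivAt.restrictScalars ℝ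
    have h4 := h3.comp_hasDerivAt (0 : ℝ) h2
    have h5 : (Q ∘ fun x : ℝ => z + ((fourier 1 (x : AddCircle (1 : ℝ)) : ℂ) - 1) • w) =
        fun _ => Q z := by
      funext x
      rw [Function.comp_apply, ← rot_single, hinv]
    rw [h5] at h4
    have h6 := h4.unique (hasDerivAt_const (0 : ℝ) (Q z))
    have h7 : fderiv ℂ Q z ((2 * Real.pi * I) • w) = 0 := h6
    rw [map_smul, smul_eq_mul, mul_eq_zero] at h7
    have h8 : (2 * Real.pi * I : ℂ) ≠ 0 := Complex.two_pi_I_ne_zero
    have h9 : fderiv ℂ Q z w = 0 := h7.resolve_left h8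
    have h10 : w = z j • (Pi.single j (1 : ℂ) : Fin n → ℂ) := by
      rw [hw]
      funext i
      by_cases h : i = j
      · subst h
        simp
      · simp [Pi.single_eq_of_ne h]
    rw [h10, map_smul, smul_eq_mul, mul_eq_zero] at h9
    exact h9.resolve_left (hz j)
  ext1 v
  have hv : v = ∑ j, v j • (Pi.single j (1 : ℂ) : Fin n → ℂ) := by
    funext i
    simp [Finset.sum_apply, Pi.single_apply]
  rw [hv, map_sum]
  simp [hj]

/-- negative and positive parts of an exponent -/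
def neg (κ : Fin n → ℤ) : Fin n → ℤ := fun j => max (-κ j) 0

def pos (κ : Fin n → ℤ) : Fin n → ℤ := fun j => max (κ j) 0

theorem add_neg' (κ : Fin n → ℤ) : κ + neg κ = pos κ := by
  funext j
  simp only [Pi.add_apply, neg, pos]
  omega

theorem comp_eq {Ω : Set (Fin n → ℂ)} (hΩ : IsOpen Ω) (hc : IsConnected Ω) (hR : Rein Ω)
    {G : (Fin n → ℂ) → ℂ} (hG : DifferentiableOn ℂ G Ω) (κ : Fin n → ℤ) :
    ∃ c : ℂ, ∀ z ∈ Ω, comp κ G z * mon (neg κ) z = c * mon (pos κ) z := by
  obtain ⟨p₀, hp₀⟩ := hc.nonempty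
  obtain ⟨p, hp, hpj⟩ := perturb hΩ hp₀
  have hcd := comp_diff hΩ hR hG κ
  obtain ⟨r, hr, hb⟩ := Metric.isOpen_iff.1 (st_open hΩ) p ⟨hp, hpj⟩
  set Q : (Fin n → ℂ) → ℂ := fun z => comp κ G z * mon (-κ) z with hQ
  have hQd : ∀ z ∈ ball p r, DifferentiableAt ℂ Q z := by
    intro z hz
    have h1 := hb hz
    exact (hcd.differentiableAt (hΩ.mem_nhds h1.1)).mul (mon_diff _ z fun j => Or.inl (h1.2 j))
  have hQ0 : EqOn (fderiv ℂ Q) 0 (ball p r) := by
    intro z hz
    refine fderiv_zero_of_inv (hb hz).2 (hQd z hz) fun t => ?_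
    rw [hQ]
    simp only
    rw [comp_rot, mon_rot, ch_neg]
    have h1 : ch κ t * starRingEnd ℂ (ch κ t) = 1 := by
      rw [← ch_neg, mul_comm]
      exact ch_neg_mul κ t
    linear_combination (comp κ G z * mon (-κ) z) * h1
  have hconst : ∀ z ∈ ball p r, Q z = Q p := by
    intro z hz
    exact isOpen_ball.is_const_of_fderiv_eq_zero (convex_ball p r).isPreconnected
      (fun z hz => (hQd z hz).differentiableWithinAt) hQ0 hz (mem_ball_self hr)
  refine ⟨Q p, ?_⟩
  have hdiff : DifferentiableOn ℂ (fun z => comp κ G z * mon (neg κ) z - Q p * mon (pos κ) z) Ω := by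
    intro z hz
    refine DifferentiableAt.differentiableWithinAt ?_
    refine ((hcd.differentiableAt (hΩ.mem_nhds hz)).mul (mon_diff _ z fun j => Or.inr ?_)).sub
      ((mon_diff _ z fun j => Or.inr ?_).const_mul _)
    · exact le_max_right _ _
    · exact le_max_right _ _
  have hev : (fun z => comp κ G z * mon (neg κ) z - Q p * mon (pos κ) z) =ᶠ[𝓝 p] fun _ => 0 := by
    filter_upwards [ball_mem_nhds p hr] with z hz
    have h1 := hconst z hz
    have hzj := (hb hz).2
    rw [← h1, hQ]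
    simp only
    have h2 : mon (-κ) z * mon (pos κ) z = mon (neg κ) z := by
      rw [← mon_add _ _ _ hzj, ← add_neg' κ, neg_add_cancel_left]
    linear_combination (-(comp κ G z)) * h2
  intro z hz
  have := ident hΩ hc.isPreconnected hdiff hp hev z hz
  exact sub_eq_zero.1 this

theorem comp_st {Ω : Set (Fin n → ℂ)} {G : (Fin n → ℂ) → ℂ} {κ : Fin n → ℤ} {c : ℂ}
    (h : ∀ z ∈ Ω, comp κ G z * mon (neg κ) z = c * mon (pos κ) z) :
    ∀ z ∈ st Ω, comp κ G z = c * mon κ z := by
  intro z hz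
  have h1 := h z hz.1
  have h2 : mon (pos κ) z = mon κ z * mon (neg κ) z := by
    rw [← mon_add _ _ _ hz.2, add_neg']
  rw [h2, ← mul_assoc] at h1
  exact mul_right_cancel₀ (mon_ne_zero _ _ fun j => Or.inl (hz.2 j)) h1

/-- the monomial is holomorphic on the domain -/
def Hol (Ω : Set (Fin n → ℂ)) (κ : Fin n → ℤ) : Prop := ∀ j, κ j < 0 → ∀ z ∈ Ω, z j ≠ 0

theorem hol_of_comp {Ω : Set (Fin n → ℂ)} (hΩ : IsOpen Ω) {G : (Fin n → ℂ) → ℂ}
    {κ : Fin n → ℤ} {c : ℂ}
    (h : ∀ z ∈ Ω, comp κ G z * mon (neg κ) z = c * mon (pos κ) z) (hc : c ≠ 0) : Hol Ω κ := by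
  intro k hk z hz hzk
  obtain ⟨q, hq, hqk, hqj⟩ := perturb' hΩ hz k
  have h1 := h q hq
  have h2 : mon (neg κ) q = 0 := by
    unfold mon
    refine Finset.prod_eq_zero (Finset.mem_univ k) ?_
    rw [hqk, hzk]
    refine zero_zpow _ ?_
    unfold neg
    omega
  have h3 : mon (pos κ) q ≠ 0 := by
    refine mon_ne_zero _ _ fun j => ?_
    by_cases hj : j = k
    · right
      subst hj
      unfold pos
      omega
    · exact Or.inl (hqj j hj)
  rw [h2, mul_zero] at h1
  exact (mul_ne_zero hc h3) h1.symm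

end Pool.Agent.R234.HK
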