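import Mathlib
import Pool.Agent.R234.HK.C

/-! Averaging over the torus, exhaustion by compact invariant sets. -/

set_option autoImplicit false

open MeasureTheory Metric Set Filter Topology Complex
open scoped ENNReal

namespace Pool.Agent.R234.HK

variable {n : ℕ}

theorem avg (Ψ : (Fin n → ℂ) → ℂ) (hΨ : Integrable Ψ) :
    ∫ z, Ψ z = ∫ z, ∫ t, Ψ (rot t z) ∂(muT n) := by
  have hmp : MeasurePreserving (fun p : Tn n × (Fin n → ℂ) => (p.1, rot p.1 p.2))
      ((muT n).prod volume) ((muT n).prod volume) := by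
    refine (MeasurePreserving.id (muT n)).skew_product (g := fun t z => rot t z)
      rot_continuous.measurable ?_
    exact Filter.Eventually.of_forall fun t => (rot_mp t).map_eq
  have h1 : Integrable (fun p : Tn n × (Fin n → ℂ) => Ψ p.2) ((muT n).prod volume) :=
    hΨ.comp_snd (muT n)
  have h2 : Integrable (fun p : Tn n × (Fin n → ℂ) => Ψ (rot p.1 p.2)) ((muT n).prod volume) :=
    hmp.integrable_comp_of_integrable h1
  have h3 : ∫ p, Ψ (rot p.1 p.2) ∂((muT n).prod volume) = ∫ z, Ψ z := by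
    have h4 : ∫ p, Ψ (rot p.1 p.2) ∂((muT n).prod volume) =
        ∫ p, Ψ p.2 ∂(((muT n).prod volume).map fun p : Tn n × (Fin n → ℂ) => (p.1, rot p.1 p.2)) := by
      rw [integral_map hmp.measurable.aemeasurable (by rw [hmp.map_eq]; exact h1.1)]
    rw [h4, hmp.map_eq, integral_prod _ h1]
    simp
  rw [← h3, integral_prod_symm _ h2]

theorem avg_equiv (κ : Fin n → ℤ) (G θ : (Fin n → ℂ) → ℂ)
    (hθ : ∀ t z, θ (rot t z) = ch (-κ) t * θ z) (hi : Integrable fun z => G z * θ z) :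
    ∫ z, G z * θ z = ∫ z, comp κ G z * θ z := by
  rw [avg _ hi]
  refine integral_congr_ae (Filter.Eventually.of_forall fun z => ?_)
  simp only
  unfold comp
  rw [← integral_mul_const]
  refine integral_congr_ae (Filter.Eventually.of_forall fun t => ?_)
  simp only
  rw [hθ]
  ring

/-- exhausting sequence of compact invariant sets -/
noncomputable def KK (Ω : Set (Fin n → ℂ)) (k : ℕ) : Set (Fin n → ℂ) :=
  {z | (∀ j, 1 / ((k : ℝ) + 1) ≤ ‖z j‖) ∧ ‖z‖ ≤ k + 1 ∧ 1 / ((k : ℝ) + 1) ≤ infDist z Ωᶜ}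

theorem KK_sub (Ω : Set (Fin n → ℂ)) (k : ℕ) : KK Ω k ⊆ st Ω := by
  rintro z ⟨h1, _, h3⟩
  have h0 : (0 : ℝ) < 1 / ((k : ℝ) + 1) := by positivity
  refine ⟨?_, fun j hj => ?_⟩
  · by_contra hz
    have : infDist z Ωᶜ = 0 := infDist_zero_of_mem hz
    rw [this] at h3
    linarith
  · have := h1 j
    rw [hj, norm_zero] at this
    linarith

theorem KK_compact (Ω : Set (Fin n → ℂ)) (k : ℕ) : IsCompact (KK Ω k) := by
  refine Metric.isCompact_of_isClosed_isBounded ?_ ?_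
  · have h : KK Ω k = (⋂ j, {z : Fin n → ℂ | 1 / ((k : ℝ) + 1) ≤ ‖z j‖}) ∩
        ({z | ‖z‖ ≤ k + 1} ∩ {z | 1 / ((k : ℝ) + 1) ≤ infDist z Ωᶜ}) := by
      ext z
      simp [KK]
    rw [h]
    refine (isClosed_iInter fun j => ?_).inter (IsClosed.inter ?_ ?_)
    · exact isClosed_le continuous_const (continuous_apply j).norm
    · exact isClosed_le continuous_norm continuous_const
    · exact isClosed_le continuous_const (continuous_infDist_pt _)
  · refine (isBounded_closedBall (x := (0 : Fin n → ℂ)) (r := (k : ℝ) + 1)).subset ?_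
    rintro z ⟨_, h2, _⟩
    rwa [mem_closedBall_zero_iff]

theorem KK_mono (Ω : Set (Fin n → ℂ)) : Monotone (KK Ω) := by
  intro k l hkl z ⟨h1, h2, h3⟩
  have hkl' : (k : ℝ) ≤ l := by exact_mod_cast hkl
  have h0 : 1 / ((l : ℝ) + 1) ≤ 1 / ((k : ℝ) + 1) :=
    one_div_le_one_div_of_le (by positivity) (by linarith)
  exact ⟨fun j => h0.trans (h1 j), h2.trans (by linarith), h0.trans h3⟩

theorem KK_union {Ω : Set (Fin n → ℂ)} (hΩ : IsOpen Ω) (hne : Ωᶜ.Nonempty) :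
    ⋃ k, KK Ω k = st Ω := by
  refine Subset.antisymm (iUnion_subset (KK_sub Ω)) ?_
  rintro z ⟨hz, hzj⟩
  have hd : 0 < infDist z Ωᶜ := by
    rw [← hΩ.isClosed_compl.notMem_iff_infDist_pos hne]
    simpa using hz
  have hev : ∀ᶠ k : ℕ in atTop, z ∈ KK Ω k := by
    have h1 : Tendsto (fun k : ℕ => 1 / ((k : ℝ) + 1)) atTop (𝓝 0) :=
      tendsto_one_div_add_atTop_nhds_zero_nat
    have h2 : ∀ j, ∀ᶠ k : ℕ in atTop, 1 / ((k : ℝ) + 1) < ‖z j‖ := fun j =>
      h1.eventually (gt_mem_nhds (norm_pos_iff.2 (hzj j)))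
    have h3 : ∀ᶠ k : ℕ in atTop, 1 / ((k : ℝ) + 1) < infDist z Ωᶜ :=
      h1.eventually (gt_mem_nhds hd)
    have h4 : ∀ᶠ k : ℕ in atTop, ‖z‖ ≤ (k : ℝ) := by
      obtain ⟨N, hN⟩ := exists_nat_ge ‖z‖
      filter_upwards [Filter.eventually_ge_atTop N] with k hk
      exact hN.trans (by exact_mod_cast hk)
    filter_upwards [Filter.eventually_all.2 h2, h3, h4] with k h5 h6 h7
    exact ⟨fun j => (h5 j).le, by linarith, h6.le⟩
  obtain ⟨k, hk⟩ := hev.exists
  exact mem_iUnion.2 ⟨k, hk⟩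

theorem rot_isometry (t : Tn n) : Isometry (rot t) := Isometry.of_dist_eq (rot_dist t)

theorem KK_rot {Ω : Set (Fin n → ℂ)} (hR : Rein Ω) (k : ℕ) (t : Tn n) (z : Fin n → ℂ) :
    rot t z ∈ KK Ω k ↔ z ∈ KK Ω k := by
  have hinv : rot t '' Ωᶜ = Ωᶜ := by
    ext w
    constructor
    · rintro ⟨z, hz, rfl⟩ hw
      apply hz
      have := hR (-t) _ hw
      rwa [← rot_add, neg_add_cancel, rot_zero] at this
    · intro hw
      refine ⟨rot (-t) w, fun h => hw ?_, ?_⟩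
      · have := hR t _ h
        rwa [← rot_add, add_neg_cancel, rot_zero] at this
      · rw [← rot_add, add_neg_cancel, rot_zero]
  have hd : infDist (rot t z) Ωᶜ = infDist z Ωᶜ := by
    conv_lhs => rw [← hinv]
    exact infDist_image (rot_isometry t)
  show ((∀ j, 1 / ((k : ℝ) + 1) ≤ ‖rot t z j‖) ∧ ‖rot t z‖ ≤ k + 1 ∧
      1 / ((k : ℝ) + 1) ≤ infDist (rot t z) Ωᶜ) ↔ _
  rw [hd, rot_norm]
  simp_rw [rot_norm_apply]
  exact Iff.rfl

theorem st_ae {Ω : Set (Fin n → ℂ)} : ∀ᵐ z : Fin n → ℂ, z ∈ Ω → z ∈ st Ω := by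
  have h : ∀ j : Fin n, ∀ᵐ z : Fin n → ℂ, z j ≠ 0 := by
    intro j
    rw [ae_iff]
    have := Measure.pi_hyperplane (fun _ : Fin n => (volume : Measure ℂ)) j 0
    rw [← volume_pi] at this
    simpa using this
  filter_upwards [ae_all_iff.2 h] with z hz hzΩ
  exact ⟨hzΩ, hz⟩

/-- the squared norm of a monomial on a set -/
noncomputable def CC (S : Set (Fin n → ℂ)) (γ : Fin n → ℤ) : ℝ≥0∞ :=
  ∫⁻ z in S, ENNReal.ofReal (‖mon γ z‖ ^ 2)

theorem CC_sup {Ω : Set (Fin n → ℂ)} (hΩ : IsOpen Ω) (hne : Ωᶜ.Nonempty) (γ : Fin n → ℤ) :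
    CC Ω γ = ⨆ k, CC (KK Ω k) γ := by
  have h1 : CC Ω γ = CC (st Ω) γ := by
    unfold CC
    refine setLIntegral_congr ?_
    filter_upwards [st_ae (Ω := Ω)] with z hz
    exact propext ⟨fun h => hz h, fun h => h.1⟩
  rw [h1, ← KK_union hΩ hne]
  unfold CC
  rw [setLIntegral_iUnion_of_directed]
  exact (KK_mono Ω).directed_le

theorem CC_tendsto {Ω : Set (Fin n → ℂ)} (hΩ : IsOpen Ω) (hne : Ωᶜ.Nonempty) (γ : Fin n → ℤ) :
    Tendsto (fun k => CC (KK Ω k) γ) atTop (𝓝 (CC Ω γ)) := by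
  rw [CC_sup hΩ hne]
  refine tendsto_atTop_iSup fun k l hkl => ?_
  exact lintegral_mono_set (KK_mono Ω hkl)

theorem CC_mono {S S' : Set (Fin n → ℂ)} (h : S ⊆ S') (γ : Fin n → ℤ) : CC S γ ≤ CC S' γ :=
  lintegral_mono_set h

theorem mon_contOn {Ω : Set (Fin n → ℂ)} (γ : Fin n → ℤ) : ContinuousOn (mon γ) (st Ω) :=
  fun z hz => (mon_diff γ z fun j => Or.inl (hz.2 j)).continuousAt.continuousWithinAt

theorem CC_eq {Ω : Set (Fin n → ℂ)} (k : ℕ) (γ : Fin n → ℤ) :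
    CC (KK Ω k) γ = ENNReal.ofReal (∫ z in KK Ω k, ‖mon γ z‖ ^ 2) := by
  unfold CC
  rw [ofReal_integral_eq_lintegral_ofReal]
  · refine ContinuousOn.integrableOn_compact (KK_compact Ω k) ?_
    exact ((mon_contOn γ).mono (KK_sub Ω k)).norm.pow 2
  · exact Filter.Eventually.of_forall fun z => by positivity

end Pool.Agent.R234.HK
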