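import Mathlib

/-! The Bergman space and Hankel operators with conjugate holomorphic symbols. -/

set_option autoImplicit false

open MeasureTheory Metric Set Filter Topology

namespace Pool.Agent.R234.HK

variable {n : ℕ}

/-- the Hilbert space `L²(Ω)` for Lebesgue measure -/
noncomputable abbrev L2 (Ω : Set (Fin n → ℂ)) := Lp ℂ 2 (volume.restrict Ω)

/-- the Bergman space: the classes in `L²(Ω)` of the holomorphic functions on `Ω` -/
noncomputable def bergman (Ω : Set (Fin n → ℂ)) : Submodule ℂ (L2 Ω) where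
  carrier := {g | ∃ G : (Fin n → ℂ) → ℂ, DifferentiableOn ℂ G Ω ∧ g =ᵐ[volume.restrict Ω] G}
  add_mem' := by
    rintro g h ⟨G, hG1, hG2⟩ ⟨H, hH1, hH2⟩
    refine ⟨G + H, hG1.add hH1, ?_⟩
    filter_upwards [Lp.coeFn_add g h, hG2, hH2] with z h1 h2 h3
    rw [h1, Pi.add_apply, Pi.add_apply, h2, h3]
  zero_mem' := ⟨0, differentiableOn_const 0, Lp.coeFn_zero _ _ _⟩
  smul_mem' := by
    rintro c g ⟨G, hG1, hG2⟩
    refine ⟨c • G, hG1.const_smul c, ?_⟩
    filter_upwards [Lp.coeFn_smul c g, hG2] with z h1 h2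
    rw [h1, Pi.smul_apply, Pi.smul_apply, h2]

/-- `g` is in the domain of `H_{f̄}`: the product `f̄ g` is square integrable. -/
def InDom (Ω : Set (Fin n → ℂ)) (f : (Fin n → ℂ) → ℂ) (g : L2 Ω) : Prop :=
  MemLp (fun z => starRingEnd ℂ (f z) * g z) 2 (volume.restrict Ω)

/-- `T` extends the Hankel operator: for `g` in the domain, `T g = (I - P)(f̄ g)`, that is, `T g` is
orthogonal to the Bergman space and `f̄ g - T g` is in the Bergman space. -/
def ExtendsHankel (Ω : Set (Fin n → ℂ)) (f : (Fin n → ℂ) → ℂ) (T : bergman Ω →L[ℂ] L2 Ω) : Prop :=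
  ∀ (g : bergman Ω) (h : InDom Ω f (g : L2 Ω)),
    T g ∈ (bergman Ω)ᗮ ∧ MemLp.toLp _ h - T g ∈ bergman Ω

end Pool.Agent.R234.HK
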