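import Mathlib
import Pool.Agent.R234.HK.D
import Pool.Agent.R234.HK.Defs

/-! The Bergman space, Hankel operators and the basic inequality. -/

set_option autoImplicit false

open MeasureTheory Metric Set Filter Topology Complex
open scoped ENNReal InnerProductSpace

namespace Pool.Agent.R234.HK

variable {n : ℕ}

theorem memLp_K {Ω : Set (Fin n → ℂ)} (k : ℕ) {g : (Fin n → ℂ) → ℂ}
    (hg : ContinuousOn g (KK Ω k)) (μ : Measure (Fin n → ℂ)) [IsFiniteMeasureOnCompacts μ] :
    MemLp ((KK Ω k).indicator g) 2 μ := by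
  have hc := KK_compact Ω k
  rw [memLp_indicator_iff_restrict hc.measurableSet]
  obtain ⟨C, hC⟩ := hc.exists_bound_of_continuousOn hg
  have hfin : IsFiniteMeasure (μ.restrict (KK Ω k)) :=
    ⟨by rw [Measure.restrict_apply_univ]; exact hc.measure_lt_top⟩
  refine MemLp.of_bound (hg.aestronglyMeasurable_of_isCompact hc hc.measurableSet) C ?_
  exact (ae_restrict_iff' hc.measurableSet).2 (Filter.Eventually.of_forall hC)

theorem int_K {Ω : Set (Fin n → ℂ)} (k : ℕ) {g : (Fin n → ℂ) → ℂ}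
    (hg : ContinuousOn g (KK Ω k)) : Integrable ((KK Ω k).indicator g) volume := by
  rw [integrable_indicator_iff (KK_compact Ω k).measurableSet]
  exact hg.integrableOn_compact (KK_compact Ω k)

/-- integral of the square of a monomial over the compact pieces -/
noncomputable def II (Ω : Set (Fin n → ℂ)) (k : ℕ) (γ : Fin n → ℤ) : ℝ :=
  ∫ z in KK Ω k, ‖mon γ z‖ ^ 2

theorem mon_intOn {Ω : Set (Fin n → ℂ)} (k : ℕ) (γ : Fin n → ℤ) :
    IntegrableOn (fun z => ‖mon γ z‖ ^ 2) (KK Ω k) :=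
  (((mon_contOn γ).mono (KK_sub Ω k)).norm.pow 2).integrableOn_compact (KK_compact Ω k)

/-- inner product of a function supported in a compact piece with an element of `L²(Ω)` -/
theorem inner_K {Ω : Set (Fin n → ℂ)} (hΩ : IsOpen Ω) (k : ℕ) {g : (Fin n → ℂ) → ℂ}
    (hg : MemLp ((KK Ω k).indicator g) 2 (volume.restrict Ω)) (u : L2 Ω) (G : (Fin n → ℂ) → ℂ)
    (hu : u =ᵐ[volume.restrict Ω] G) :
    ⟪hg.toLp _, u⟫_ℂ = ∫ z in KK Ω k, starRingEnd ℂ (g z) * G z := by
  rw [L2.inner_def]
  have h1 : ∫ z in Ω, ⟪(hg.toLp _ : L2 Ω) z, u z⟫_ℂ =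
      ∫ z in Ω, (KK Ω k).indicator (fun z => starRingEnd ℂ (g z) * G z) z := by
    refine integral_congr_ae ?_
    filter_upwards [hg.coeFn_toLp, hu] with z h2 h3
    rw [h2, h3, RCLike.inner_apply']
    by_cases hz : z ∈ KK Ω k
    · rw [indicator_of_mem hz, indicator_of_mem hz]
    · rw [indicator_of_notMem hz, indicator_of_notMem hz, map_zero, zero_mul]
  rw [h1, ← integral_indicator hΩ.measurableSet, ← integral_indicator
    (KK_compact Ω k).measurableSet]
  congr 1
  funext z
  by_cases hz : z ∈ KK Ω k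
  · rw [indicator_of_mem hz, indicator_of_mem (KK_sub Ω k hz).1, indicator_of_mem hz]
  · rw [indicator_of_notMem hz]
    by_cases hz' : z ∈ Ω
    · rw [indicator_of_mem hz', indicator_of_notMem hz]
    · rw [indicator_of_notMem hz']

theorem KI {Ω : Set (Fin n → ℂ)} (hΩ : IsOpen Ω) (hcon : IsConnected Ω) (hR : Rein Ω)
    {f : (Fin n → ℂ) → ℂ} (hf : DifferentiableOn ℂ f Ω) (T : bergman Ω →L[ℂ] L2 Ω)
    (hT : ExtendsHankel Ω f T) (hD : Dense {g : bergman Ω | InDom Ω f (g : L2 Ω)})
    (κ : Fin n → ℤ) (c : ℂ) (hc : ∀ z ∈ Ω, comp κ f z * mon (neg κ) z = c * mon (pos κ) z)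
    (α : Fin n → ℤ) (e : bergman Ω) (he : (e : L2 Ω) =ᵐ[volume.restrict Ω] mon α) (k : ℕ) (a : ℝ)
    (ha : (a = 0 ∧ ¬ Hol Ω (α - κ)) ∨ a * II Ω k (α - κ) = II Ω k α) :
    ‖c‖ ^ 2 * (II Ω k (α + κ) - a * II Ω k α) ≤ ‖T e‖ ^ 2 := by
  set K := KK Ω k with hK
  have hKm : MeasurableSet K := (KK_compact Ω k).measurableSet
  set β := α - κ with hβ
  have hmc : ∀ γ : Fin n → ℤ, ContinuousOn (mon γ) K := fun γ => (mon_contOn γ).mono (KK_sub Ω k)
  have hfc : ContinuousOn f K := hf.continuousOn.mono fun z hz => (KK_sub Ω k hz).1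
  -- the real factor
  set r : (Fin n → ℂ) → ℝ := fun z => ‖mon κ z‖ ^ 2 - a with hr
  have hrc : ContinuousOn (fun z => ((r z : ℝ) : ℂ)) K :=
    Complex.continuous_ofReal.comp_continuousOn (((hmc κ).norm.pow 2).sub continuousOn_const)
  have hrinv : ∀ t z, r (rot t z) = r z := by
    intro t z
    rw [hr]
    simp only
    rw [mon_rot_norm]
  -- test function
  set v0 : (Fin n → ℂ) → ℂ := fun z => mon β z * (r z : ℂ) with hv0
  have hv0c : ContinuousOn v0 K := (hmc β).mul hrc
  have hvL : MemLp (K.indicator v0) 2 (volume.restrict Ω) := memLp_K k hv0c _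
  set w0 : (Fin n → ℂ) → ℂ := fun z => f z * v0 z with hw0
  have hwL : MemLp (K.indicator w0) 2 (volume.restrict Ω) := memLp_K k (hfc.mul hv0c) _
  set v : L2 Ω := hvL.toLp _ with hv
  set w : L2 Ω := hwL.toLp _ with hw
  have hinv : ∀ t z, K.indicator (fun _ => (1 : ℂ)) (rot t z) = K.indicator (fun _ => (1 : ℂ)) z := by
    intro t z
    by_cases hz : z ∈ K
    · rw [indicator_of_mem hz, indicator_of_mem ((KK_rot hR k t z).2 hz)]
    · rw [indicator_of_notMem hz, indicator_of_notMem (fun h => hz ((KK_rot hR k t z).1 h))]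
  have hind : ∀ (g : (Fin n → ℂ) → ℂ) z, K.indicator g z = K.indicator (fun _ => (1 : ℂ)) z * g z := by
    intro g z
    by_cases hz : z ∈ K
    · rw [indicator_of_mem hz, indicator_of_mem hz, one_mul]
    · rw [indicator_of_notMem hz, indicator_of_notMem hz, zero_mul]
  -- exponent identities on `K`
  have hsum1 : ∀ z ∈ K, mon α z = mon κ z * mon β z := by
    intro z hz
    rw [← mon_add _ _ _ (KK_sub Ω k hz).2, hβ, add_sub_cancel]
  have hsum2 : ∀ z ∈ K, mon (α + κ) z = mon α z * mon κ z := fun z hz =>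
    mon_add _ _ _ (KK_sub Ω k hz).2
  -- integrals
  have hI1 : ∫ z in K, ‖mon α z‖ ^ 2 * r z = II Ω k (α + κ) - a * II Ω k α := by
    unfold II
    rw [← integral_const_mul, ← integral_sub (mon_intOn k (α + κ)) ((mon_intOn k α).const_mul a)]
    refine setIntegral_congr_fun hKm fun z hz => ?_
    rw [hsum2 z hz, norm_mul, hr]
    ring
  have hI2 : ∫ z in K, ‖mon β z‖ ^ 2 * r z = II Ω k α - a * II Ω k β := by
    unfold II
    rw [← integral_const_mul, ← integral_sub (mon_intOn k α) ((mon_intOn k β).const_mul a)]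
    refine setIntegral_congr_fun hKm fun z hz => ?_
    rw [hsum1 z hz, norm_mul, hr]
    ring
  -- orthogonality
  have horth : v ∈ (bergman Ω)ᗮ := by
    rw [Submodule.mem_orthogonal']
    rintro g ⟨G, hG1, hG2⟩
    rw [inner_K hΩ k hvL g G hG2]
    obtain ⟨cg, hcg⟩ := comp_eq hΩ hcon hR hG1 β
    have hcst := comp_st hcg
    have hGc : ContinuousOn G K := hG1.continuousOn.mono fun z hz => (KK_sub Ω k hz).1
    set θ : (Fin n → ℂ) → ℂ := K.indicator (fun z => starRingEnd ℂ (v0 z)) with hθ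
    have hθinv : ∀ t z, θ (rot t z) = ch (-β) t * θ z := by
      intro t z
      rw [hθ, hind, hind _ z, hinv, hv0]
      simp only
      rw [hrinv, mon_rot, ch_neg, map_mul, map_mul, map_mul]
      ring
    have hGθ : (fun z => G z * θ z) = K.indicator (fun z => G z * starRingEnd ℂ (v0 z)) := by
      funext z
      by_cases hz : z ∈ K
      · rw [hθ, indicator_of_mem hz, indicator_of_mem hz]
      · rw [hθ, indicator_of_notMem hz, indicator_of_notMem hz, mul_zero]
    have hint : Integrable fun z => G z * θ z := by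
      rw [hGθ]
      exact int_K k (hGc.mul (Complex.continuous_conj.comp_continuousOn hv0c))
    have h1 := avg_equiv β G θ hθinv hint
    have h2 : ∫ z, G z * θ z = ∫ z in K, starRingEnd ℂ (v0 z) * G z := by
      rw [hGθ, integral_indicator hKm]
      refine setIntegral_congr_fun hKm fun z _ => mul_comm _ _
    have h3 : ∫ z, comp β G z * θ z = cg * ((II Ω k α - a * II Ω k β : ℝ) : ℂ) := by
      rw [← hI2, ← integral_complex_ofReal, ← integral_const_mul, ← integral_indicator hKm]
      congr 1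
      funext z
      by_cases hz : z ∈ K
      · rw [hθ, indicator_of_mem hz, indicator_of_mem hz, hcst z (KK_sub Ω k hz), hv0]
        simp only
        rw [map_mul, Complex.conj_ofReal, Complex.ofReal_mul, Complex.ofReal_pow, ← Complex.mul_conj']
        ring
      · rw [hθ, indicator_of_notMem hz, indicator_of_notMem hz, mul_zero]
    rw [← h2, h1, h3]
    rcases ha with ⟨ha0, hnh⟩ | ha1
    · have hcg0 : cg = 0 := by
        by_contra hne
        exact hnh (hol_of_comp hΩ hcg hne)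
      rw [hcg0, zero_mul]
    · rw [ha1, sub_self, Complex.ofReal_zero, mul_zero]
  -- the pairing with `T`
  have hpair : ∀ g : bergman Ω, ⟪v, T g⟫_ℂ = ⟪w, (g : L2 Ω)⟫_ℂ := by
    have hcl : IsClosed {g : bergman Ω | ⟪v, T g⟫_ℂ = ⟪w, (g : L2 Ω)⟫_ℂ} :=
      isClosed_eq (continuous_const.inner T.continuous)
        (continuous_const.inner continuous_subtype_val)
    have hsub : {g : bergman Ω | InDom Ω f (g : L2 Ω)} ⊆
        {g : bergman Ω | ⟪v, T g⟫_ℂ = ⟪w, (g : L2 Ω)⟫_ℂ} := by
      intro g hg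
      show ⟪v, T g⟫_ℂ = ⟪w, (g : L2 Ω)⟫_ℂ
      have h1 := (hT g hg).2
      have h2 : ⟪v, MemLp.toLp _ hg - T g⟫_ℂ = 0 :=
        Submodule.inner_left_of_mem_orthogonal h1 horth
      rw [inner_sub_right, sub_eq_zero] at h2
      rw [← h2, inner_K hΩ k hvL _ _ (MemLp.coeFn_toLp hg), inner_K hΩ k hwL _ _ (Filter.EventuallyEq.refl _ _)]
      refine setIntegral_congr_fun hKm fun z _ => ?_
      have e1 : starRingEnd ℂ (w0 z) = starRingEnd ℂ (f z) * starRingEnd ℂ (v0 z) := map_mul _ _ _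
      show starRingEnd ℂ (v0 z) * (starRingEnd ℂ (f z) * (g : L2 Ω) z) =
        starRingEnd ℂ (w0 z) * (g : L2 Ω) z
      rw [e1]
      ring
    intro g
    have := hD.closure_eq ▸ closure_minimal hsub hcl
    exact this (mem_univ g)
  -- value of the pairing at the monomial
  have hval : ⟪w, (e : L2 Ω)⟫_ℂ = starRingEnd ℂ c * ((II Ω k (α + κ) - a * II Ω k α : ℝ) : ℂ) := by
    rw [inner_K hΩ k hwL _ _ he]
    have hcst := comp_st hc
    set θ : (Fin n → ℂ) → ℂ := K.indicator (fun z => v0 z * starRingEnd ℂ (mon α z)) with hθ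
    have hθinv : ∀ t z, θ (rot t z) = ch (-κ) t * θ z := by
      intro t z
      rw [hθ, hind, hind _ z, hinv, hv0]
      simp only
      rw [hrinv, mon_rot, mon_rot, map_mul, ← ch_neg]
      have h1 : ch (-κ) t = ch β t * ch (-α) t := by
        rw [← ch_add', hβ]
        congr 1
        abel
      rw [h1]
      ring
    have hfθ : (fun z => f z * θ z) =
        K.indicator (fun z => f z * (v0 z * starRingEnd ℂ (mon α z))) := by
      funext z
      by_cases hz : z ∈ K
      · rw [hθ, indicator_of_mem hz, indicator_of_mem hz]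
      · rw [hθ, indicator_of_notMem hz, indicator_of_notMem hz, mul_zero]
    have hint : Integrable fun z => f z * θ z := by
      rw [hfθ]
      exact int_K k (hfc.mul (hv0c.mul (Complex.continuous_conj.comp_continuousOn (hmc α))))
    have h1 := avg_equiv κ f θ hθinv hint
    have h2 : ∫ z, f z * θ z = starRingEnd ℂ (∫ z in K, starRingEnd ℂ (w0 z) * mon α z) := by
      rw [hfθ, integral_indicator hKm, ← integral_conj]
      refine setIntegral_congr_fun hKm fun z _ => ?_
      rw [hw0]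
      simp only
      rw [map_mul, Complex.conj_conj]
      ring
    have h3 : ∫ z, comp κ f z * θ z = c * ((II Ω k (α + κ) - a * II Ω k α : ℝ) : ℂ) := by
      rw [← hI1, ← integral_complex_ofReal, ← integral_const_mul, ← integral_indicator hKm]
      congr 1
      funext z
      by_cases hz : z ∈ K
      · rw [hθ, indicator_of_mem hz, indicator_of_mem hz, hcst z (KK_sub Ω k hz), hv0]
        simp only
        rw [Complex.ofReal_mul, Complex.ofReal_pow, ← Complex.mul_conj', hsum1 z hz, map_mul]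
        ring
      · rw [hθ, indicator_of_notMem hz, indicator_of_notMem hz, mul_zero]
    have h4 : starRingEnd ℂ (∫ z in K, starRingEnd ℂ (w0 z) * mon α z) =
        c * ((II Ω k (α + κ) - a * II Ω k α : ℝ) : ℂ) := by
      rw [← h2, h1, h3]
    have h5 := congrArg (starRingEnd ℂ) h4
    rw [Complex.conj_conj, map_mul, Complex.conj_ofReal] at h5
    exact h5
  -- norm of the test function
  have hnorm : ‖v‖ ^ 2 = II Ω k (α + κ) - a * II Ω k α := by
    have h1 : ((‖v‖ ^ 2 : ℝ) : ℂ) = ⟪v, v⟫_ℂ := by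
      rw [inner_self_eq_norm_sq_to_K]
      norm_cast
    have h2 : ⟪v, v⟫_ℂ = ∫ z in K, starRingEnd ℂ (v0 z) * K.indicator v0 z :=
      inner_K hΩ k hvL v _ hvL.coeFn_toLp
    have h3 : ∫ z in K, starRingEnd ℂ (v0 z) * K.indicator v0 z =
        ((∫ z in K, ‖mon β z‖ ^ 2 * (r z) ^ 2 : ℝ) : ℂ) := by
      rw [← integral_complex_ofReal]
      refine setIntegral_congr_fun hKm fun z hz => ?_
      rw [indicator_of_mem hz, hv0]
      simp only
      rw [map_mul, Complex.conj_ofReal, Complex.ofReal_mul, Complex.ofReal_pow, Complex.ofReal_pow,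
        ← Complex.mul_conj']
      ring
    have h4 : ∫ z in K, ‖mon β z‖ ^ 2 * (r z) ^ 2 = II Ω k (α + κ) - a * II Ω k α -
        a * (II Ω k α - a * II Ω k β) := by
      rw [← hI1, ← hI2, ← integral_const_mul, ← integral_sub]
      · refine setIntegral_congr_fun hKm fun z hz => ?_
        rw [hsum1 z hz, norm_mul, hr]
        ring
      · refine ContinuousOn.integrableOn_compact (KK_compact Ω k) ?_
        exact ((hmc α).norm.pow 2).mul (((hmc κ).norm.pow 2).sub continuousOn_const)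
      · refine ContinuousOn.integrableOn_compact (KK_compact Ω k) ?_
        exact continuousOn_const.mul
          (((hmc β).norm.pow 2).mul (((hmc κ).norm.pow 2).sub continuousOn_const))
    have h5 : a * (II Ω k α - a * II Ω k β) = 0 := by
      rcases ha with ⟨ha0, _⟩ | ha1
      · rw [ha0, zero_mul]
      · rw [ha1, sub_self, mul_zero]
    have h6 : ((‖v‖ ^ 2 : ℝ) : ℂ) = ((II Ω k (α + κ) - a * II Ω k α : ℝ) : ℂ) := by
      rw [h1, h2, h3, h4, h5, sub_zero]
    exact_mod_cast h6
  -- conclusion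
  have h1 : ‖c‖ * ‖v‖ ^ 2 ≤ ‖v‖ * ‖T e‖ := by
    have h2 : ‖⟪v, T e⟫_ℂ‖ ≤ ‖v‖ * ‖T e‖ := norm_inner_le_norm _ _
    rw [hpair e, hval, norm_mul, RCLike.norm_conj, Complex.norm_real, ← hnorm,
      Real.norm_of_nonneg (by positivity)] at h2
    exact h2
  rw [← hnorm]
  rcases eq_or_lt_of_le (norm_nonneg v) with h0 | h0
  · rw [← h0]
    simp
  · have h3 : ‖c‖ * ‖v‖ ≤ ‖T e‖ := by
      have : ‖v‖ * (‖c‖ * ‖v‖) ≤ ‖v‖ * ‖T e‖ := by
        calc ‖v‖ * (‖c‖ * ‖v‖) = ‖c‖ * ‖v‖ ^ 2 := by ring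
          _ ≤ _ := h1
      exact le_of_mul_le_mul_left this h0
    calc ‖c‖ ^ 2 * ‖v‖ ^ 2 = (‖c‖ * ‖v‖) ^ 2 := by ring
      _ ≤ ‖T e‖ ^ 2 := by
        exact pow_le_pow_left₀ (by positivity) h3 2

end Pool.Agent.R234.HK
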