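import Mathlib
import Pool.Agent.R234.HK.E

/-! The basic inequality in the limit. -/

set_option autoImplicit false

open MeasureTheory Metric Set Filter Topology Complex
open scoped ENNReal InnerProductSpace

namespace Pool.Agent.R234.HK

variable {n : ℕ}

theorem CC_pos {U : Set (Fin n → ℂ)} (hU : IsOpen U) (hne : U.Nonempty) (hs : ∀ z ∈ U, ∀ j, z j ≠ 0)
    (γ : Fin n → ℤ) : 0 < CC U γ := by
  rw [pos_iff_ne_zero]
  intro h0
  have h1 : ∀ᵐ z ∂(volume.restrict U), ENNReal.ofReal (‖mon γ z‖ ^ 2) = 0 := by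
    have hm : AEMeasurable (fun z => ENNReal.ofReal (‖mon γ z‖ ^ 2)) (volume.restrict U) := by
      refine ENNReal.measurable_ofReal.comp_aemeasurable ?_
      have hc : ContinuousOn (fun z => ‖mon γ z‖ ^ 2) U := by
        intro z hz
        exact ((mon_diff γ z fun j => Or.inl (hs z hz j)).continuousAt.continuousWithinAt).norm.pow 2
      exact hc.aemeasurable hU.measurableSet
    exact (lintegral_eq_zero_iff' hm).1 h0
  rw [ae_restrict_iff' hU.measurableSet] at h1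
  have h2 : volume U = 0 := by
    rw [← nonpos_iff_eq_zero]
    have h3 : ∀ᵐ z : Fin n → ℂ, z ∉ U := by
      filter_upwards [h1] with z hz hzU
      have h4 := hz hzU
      rw [ENNReal.ofReal_eq_zero] at h4
      have h5 : 0 < ‖mon γ z‖ := norm_pos_iff.2 (mon_ne_zero γ z fun j => Or.inl (hs z hzU j))
      have h6 : 0 < ‖mon γ z‖ ^ 2 := by positivity
      linarith
    rw [ae_iff] at h3
    simp only [not_not] at h3
    exact h3.le
  exact (hU.measure_pos volume hne).ne' h2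

open Classical in
/-- squared norm of a monomial, infinite if it is not holomorphic on the domain -/
noncomputable def XX (Ω : Set (Fin n → ℂ)) (γ : Fin n → ℤ) : ℝ≥0∞ :=
  if Hol Ω γ then CC Ω γ else ⊤

theorem star_ineq {Ω : Set (Fin n → ℂ)} (hΩ : IsOpen Ω) (hcon : IsConnected Ω) (hR : Rein Ω)
    (hne : Ωᶜ.Nonempty)
    {f : (Fin n → ℂ) → ℂ} (hf : DifferentiableOn ℂ f Ω) (T : bergman Ω →L[ℂ] L2 Ω)
    (hT : ExtendsHankel Ω f T) (hD : Dense {g : bergman Ω | InDom Ω f (g : L2 Ω)})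
    (κ : Fin n → ℤ) (c : ℂ) (hc : ∀ z ∈ Ω, comp κ f z * mon (neg κ) z = c * mon (pos κ) z)
    (α : Fin n → ℤ) (e : bergman Ω) (he : (e : L2 Ω) =ᵐ[volume.restrict Ω] mon α)
    (hα : CC Ω α ≠ ⊤) :
    ENNReal.ofReal (‖c‖ ^ 2) * CC Ω (α + κ) ≤ ENNReal.ofReal (‖T e‖ ^ 2) +
      ENNReal.ofReal (‖c‖ ^ 2) * (CC Ω α ^ 2 / XX Ω (α - κ)) := by
  have hlim := CC_tendsto hΩ hne (α + κ)
  have hlim' : Tendsto (fun k => ENNReal.ofReal (‖c‖ ^ 2) * CC (KK Ω k) (α + κ)) atTop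
      (𝓝 (ENNReal.ofReal (‖c‖ ^ 2) * CC Ω (α + κ))) :=
    ENNReal.Tendsto.const_mul hlim (Or.inr ENNReal.ofReal_ne_top)
  have hII0 : ∀ k γ, 0 ≤ II Ω k γ := fun k γ => integral_nonneg fun z => by positivity
  by_cases hhol : Hol Ω (α - κ)
  · have hX : XX Ω (α - κ) = CC Ω (α - κ) := if_pos hhol
    have hpos : 0 < CC Ω (α - κ) := by
      obtain ⟨p, hp⟩ := hcon.nonempty
      obtain ⟨q, hq, hqj⟩ := perturb hΩ hp
      exact lt_of_lt_of_le (CC_pos (st_open hΩ) ⟨q, hq, hqj⟩ (fun z hz => hz.2) _)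
        (CC_mono (fun z hz => hz.1) _)
    have hev : ∀ᶠ k in atTop, 0 < CC (KK Ω k) (α - κ) :=
      (CC_tendsto hΩ hne (α - κ)).eventually (lt_mem_nhds hpos)
    have hb : ∀ᶠ k in atTop, ENNReal.ofReal (‖c‖ ^ 2) * CC (KK Ω k) (α + κ) ≤
        ENNReal.ofReal (‖T e‖ ^ 2) +
          ENNReal.ofReal (‖c‖ ^ 2) * (CC Ω α ^ 2 / CC (KK Ω k) (α - κ)) := by
      filter_upwards [hev] with k hk
      rw [CC_eq] at hk
      have hk' : 0 < II Ω k (α - κ) := ENNReal.ofReal_pos.1 hk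
      have h1 := KI hΩ hcon hR hf T hT hD κ c hc α e he k (II Ω k α / II Ω k (α - κ))
        (Or.inr (by field_simp))
      have h2 : ‖c‖ ^ 2 * II Ω k (α + κ) ≤ ‖T e‖ ^ 2 +
          ‖c‖ ^ 2 * (II Ω k α ^ 2 / II Ω k (α - κ)) := by
        have h3 : II Ω k α / II Ω k (α - κ) * II Ω k α = II Ω k α ^ 2 / II Ω k (α - κ) := by ring
        rw [h3] at h1
        nlinarith
      calc ENNReal.ofReal (‖c‖ ^ 2) * CC (KK Ω k) (α + κ)
          = ENNReal.ofReal (‖c‖ ^ 2 * II Ω k (α + κ)) := by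
            rw [CC_eq, ENNReal.ofReal_mul (by positivity)]
            rfl
        _ ≤ ENNReal.ofReal (‖T e‖ ^ 2 + ‖c‖ ^ 2 * (II Ω k α ^ 2 / II Ω k (α - κ))) :=
            ENNReal.ofReal_le_ofReal h2
        _ = ENNReal.ofReal (‖T e‖ ^ 2) +
            ENNReal.ofReal (‖c‖ ^ 2) * (CC (KK Ω k) α ^ 2 / CC (KK Ω k) (α - κ)) := by
            rw [ENNReal.ofReal_add (by positivity) (by positivity),
              ENNReal.ofReal_mul (by positivity), ENNReal.ofReal_div_of_pos hk',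
              ENNReal.ofReal_pow (hII0 k α), CC_eq, CC_eq]
            rfl
        _ ≤ _ := by
            refine add_le_add le_rfl (mul_le_mul' le_rfl (ENNReal.div_le_div ?_ le_rfl))
            exact pow_le_pow_left' (CC_mono (fun z hz => (KK_sub Ω k hz).1) α) 2
    rw [hX]
    refine le_of_tendsto_of_tendsto hlim' ?_ hb
    refine Tendsto.add tendsto_const_nhds ?_
    refine ENNReal.Tendsto.const_mul ?_ (Or.inr ENNReal.ofReal_ne_top)
    exact ENNReal.Tendsto.const_div (CC_tendsto hΩ hne (α - κ)) (Or.inr (ENNReal.pow_ne_top hα))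
  · have hX : XX Ω (α - κ) = ⊤ := if_neg hhol
    rw [hX, ENNReal.div_top, mul_zero, add_zero]
    refine le_of_tendsto hlim' (Filter.Eventually.of_forall fun k => ?_)
    have h1 := KI hΩ hcon hR hf T hT hD κ c hc α e he k 0 (Or.inl ⟨rfl, hhol⟩)
    rw [zero_mul, sub_zero] at h1
    calc ENNReal.ofReal (‖c‖ ^ 2) * CC (KK Ω k) (α + κ)
          = ENNReal.ofReal (‖c‖ ^ 2 * II Ω k (α + κ)) := by
            rw [CC_eq, ENNReal.ofReal_mul (by positivity)]
            rfl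
      _ ≤ _ := ENNReal.ofReal_le_ofReal h1

/-- the monomial as an element of the Bergman space -/
theorem exists_mon {Ω : Set (Fin n → ℂ)} (hΩ : IsOpen Ω) (γ : Fin n → ℤ) (hh : Hol Ω γ)
    (hfin : CC Ω γ ≠ ⊤) :
    ∃ e : bergman Ω, (e : L2 Ω) =ᵐ[volume.restrict Ω] mon γ ∧ ‖e‖ ^ 2 = (CC Ω γ).toReal := by
  have hd : DifferentiableOn ℂ (mon γ) Ω := by
    intro z hz
    refine (mon_diff γ z fun j => ?_).differentiableWithinAt
    rcases lt_or_ge (γ j) 0 with h | h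
    · exact Or.inl (hh j h z hz)
    · exact Or.inr h
  have hm : AEStronglyMeasurable (mon γ) (volume.restrict Ω) :=
    hd.continuousOn.aestronglyMeasurable hΩ.measurableSet
  have hL : MemLp (mon γ) 2 (volume.restrict Ω) := by
    refine ⟨hm, ?_⟩
    rw [eLpNorm_lt_top_iff_lintegral_rpow_enorm_lt_top (by norm_num) (by norm_num)]
    refine lt_of_eq_of_lt ?_ (lt_top_iff_ne_top.2 hfin)
    unfold CC
    refine lintegral_congr fun z => ?_
    rw [← ofReal_norm, ENNReal.ofReal_pow (norm_nonneg _)]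
    norm_num
  refine ⟨⟨hL.toLp _, mon γ, hd, hL.coeFn_toLp⟩, hL.coeFn_toLp, ?_⟩
  rw [Submodule.coe_norm]
  have h1 : ‖(hL.toLp _ : L2 Ω)‖ ^ 2 = ∫ z in Ω, ‖mon γ z‖ ^ 2 := by
    have h2 : ((‖(hL.toLp _ : L2 Ω)‖ ^ 2 : ℝ) : ℂ) = ⟪(hL.toLp _ : L2 Ω), hL.toLp _⟫_ℂ := by
      rw [inner_self_eq_norm_sq_to_K]
      norm_cast
    have h3 : ⟪(hL.toLp _ : L2 Ω), hL.toLp _⟫_ℂ = ((∫ z in Ω, ‖mon γ z‖ ^ 2 : ℝ) : ℂ) := by
      rw [L2.inner_def, ← integral_complex_ofReal]
      refine integral_congr_ae ?_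
      filter_upwards [hL.coeFn_toLp] with z hz
      rw [hz, inner_self_eq_norm_sq_to_K]
      norm_cast
    rw [h3] at h2
    exact_mod_cast h2
  rw [h1]
  unfold CC
  rw [integral_eq_lintegral_of_nonneg_ae (f := fun z => ‖mon γ z‖ ^ 2)
    (Filter.Eventually.of_forall fun z => by positivity) ((hm.norm).pow 2)]

theorem inner_mon {Ω : Set (Fin n → ℂ)} (hΩ : IsOpen Ω) (hR : Rein Ω) {γ l : Fin n → ℤ}
    (hne : γ ≠ l) (e e' : bergman Ω) (he : (e : L2 Ω) =ᵐ[volume.restrict Ω] mon γ)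
    (he' : (e' : L2 Ω) =ᵐ[volume.restrict Ω] mon l) : ⟪e, e'⟫_ℂ = 0 := by
  rw [Submodule.coe_inner, L2.inner_def]
  have h1 : ∫ z in Ω, ⟪(e : L2 Ω) z, (e' : L2 Ω) z⟫_ℂ =
      ∫ z, Ω.indicator (fun z => starRingEnd ℂ (mon γ z) * mon l z) z := by
    rw [integral_indicator hΩ.measurableSet]
    refine integral_congr_ae ?_
    filter_upwards [he, he'] with z h2 h3
    rw [h2, h3, RCLike.inner_apply']
  rw [h1]
  set Ψ : (Fin n → ℂ) → ℂ := Ω.indicator (fun z => starRingEnd ℂ (mon γ z) * mon l z) with hΨ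
  obtain ⟨j, hj⟩ : ∃ j, γ j ≠ l j := Function.ne_iff.1 hne
  set d : ℤ := l j - γ j with hd
  have hd0 : (d : ℝ) ≠ 0 := by
    have : d ≠ 0 := by rw [hd]; omega
    exact_mod_cast this
  set t : Tn n := Pi.single j (((1 / (2 * (d : ℝ)) : ℝ)) : AddCircle (1 : ℝ)) with ht
  have hch : ch (l - γ) t = -1 := by
    unfold ch
    rw [Finset.prod_eq_single j]
    · rw [ht, Pi.single_eq_same, Pi.sub_apply, fourier_coe_apply, ← hd]
      have : 2 * (Real.pi : ℂ) * I * (d : ℂ) * ((1 / (2 * (d : ℝ)) : ℝ) : ℂ) / ((1 : ℝ) : ℂ) =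
          Real.pi * I := by
        have hd1 : (d : ℂ) ≠ 0 := by exact_mod_cast hd0
        push_cast
        field_simp
      rw [this, Complex.exp_pi_mul_I]
    · intro i _ hi
      rw [ht, Pi.single_eq_of_ne hi, fourier_eval_zero]
    · intro h
      exact absurd (Finset.mem_univ j) h
  have hmem : ∀ z, rot t z ∈ Ω ↔ z ∈ Ω := by
    intro z
    refine ⟨fun h => ?_, fun h => hR t z h⟩
    have := hR (-t) _ h
    rwa [← rot_add, neg_add_cancel, rot_zero] at this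
  have hrot : ∀ z, Ψ (rot t z) = - Ψ z := by
    intro z
    by_cases hz : z ∈ Ω
    · rw [hΨ, indicator_of_mem hz, indicator_of_mem ((hmem z).2 hz), mon_rot, mon_rot, map_mul,
        ← ch_neg]
      have h2 : ch (-γ) t * ch l t = -1 := by
        rw [← ch_add', ← hch]
        congr 1
        abel
      linear_combination (starRingEnd ℂ (mon γ z) * mon l z) * h2
    · rw [hΨ, indicator_of_notMem hz, indicator_of_notMem (fun h => hz ((hmem z).1 h)), neg_zero]
  have h3 : ∫ z, Ψ (rot t z) = ∫ z, Ψ z := by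
    have hemb : MeasurableEmbedding (rot t) := by
      refine Topology.IsClosedEmbedding.measurableEmbedding ?_
      exact (rot_isometry t).isClosedEmbedding
    exact (rot_mp t).integral_comp hemb Ψ
  simp_rw [hrot] at h3
  rw [integral_neg] at h3
  have h4 : (2 : ℂ) * ∫ z, Ψ z = 0 := by linear_combination -h3
  rcases mul_eq_zero.1 h4 with h5 | h5
  · norm_num at h5
  · exact h5

end Pool.Agent.R234.HK
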