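import Mathlib

/-! Hilbert-Schmidt bound for orthonormal families, and a lemma on sequences. -/

set_option autoImplicit false

open Set Filter Topology
open scoped ENNReal InnerProductSpace

namespace Pool.Agent.R234.HK

theorem functional_bound {H : Type*} [NormedAddCommGroup H] [InnerProductSpace ℂ H] {ι : Type*}
    (b : ι → H) (hb : Orthonormal ℂ b)
    (hd : (Submodule.span ℂ (range b)).topologicalClosure = ⊤) (φ : H →L[ℂ] ℂ) (B : ℝ)
    (hB : ∀ s : Finset ι, ∑ i ∈ s, ‖φ (b i)‖ ^ 2 ≤ B) (x : H) : ‖φ x‖ ^ 2 ≤ B * ‖x‖ ^ 2 := by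
  have hcl : IsClosed {x : H | ‖φ x‖ ^ 2 ≤ B * ‖x‖ ^ 2} :=
    isClosed_le (by fun_prop) (by fun_prop)
  have hsub : ((Submodule.span ℂ (range b) : Submodule ℂ H) : Set H) ⊆
      {x : H | ‖φ x‖ ^ 2 ≤ B * ‖x‖ ^ 2} := by
    intro x hx
    rw [SetLike.mem_coe, Finsupp.mem_span_range_iff_exists_finsupp] at hx
    obtain ⟨a, rfl⟩ := hx
    show ‖φ (a.sum fun i c => c • b i)‖ ^ 2 ≤ B * ‖a.sum fun i c => c • b i‖ ^ 2
    rw [Finsupp.sum]
    have h1 : ‖∑ i ∈ a.support, a i • b i‖ ^ 2 = ∑ i ∈ a.support, ‖a i‖ ^ 2 := by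
      have h2 : ((‖∑ i ∈ a.support, a i • b i‖ ^ 2 : ℝ) : ℂ) =
          ⟪∑ i ∈ a.support, a i • b i, ∑ i ∈ a.support, a i • b i⟫_ℂ := by
        rw [inner_self_eq_norm_sq_to_K]
        norm_cast
      rw [hb.inner_sum] at h2
      have h3 : ∑ i ∈ a.support, starRingEnd ℂ (a i) * a i =
          ((∑ i ∈ a.support, ‖a i‖ ^ 2 : ℝ) : ℂ) := by
        push_cast
        refine Finset.sum_congr rfl fun i _ => ?_
        rw [Complex.conj_mul']
      rw [h3] at h2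
      exact_mod_cast h2
    rw [h1, map_sum]
    have h4 : ‖∑ i ∈ a.support, φ (a i • b i)‖ ≤ ∑ i ∈ a.support, ‖a i‖ * ‖φ (b i)‖ := by
      refine (norm_sum_le _ _).trans (Finset.sum_le_sum fun i _ => ?_)
      rw [map_smul, norm_smul]
    have h5 := Finset.sum_mul_sq_le_sq_mul_sq a.support (fun i => ‖a i‖) (fun i => ‖φ (b i)‖)
    have h6 : 0 ≤ ∑ i ∈ a.support, ‖a i‖ ^ 2 := Finset.sum_nonneg fun i _ => by positivity
    calc ‖∑ i ∈ a.support, φ (a i • b i)‖ ^ 2 ≤ (∑ i ∈ a.support, ‖a i‖ * ‖φ (b i)‖) ^ 2 :=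
          pow_le_pow_left₀ (norm_nonneg _) h4 2
      _ ≤ (∑ i ∈ a.support, ‖a i‖ ^ 2) * ∑ i ∈ a.support, ‖φ (b i)‖ ^ 2 := h5
      _ ≤ (∑ i ∈ a.support, ‖a i‖ ^ 2) * B := mul_le_mul_of_nonneg_left (hB _) h6
      _ = _ := mul_comm _ _
  have h1 := closure_minimal hsub hcl
  have h2 : x ∈ (Submodule.span ℂ (range b)).topologicalClosure := by
    rw [hd]
    trivial
  exact h1 h2

theorem functional_hs {H : Type*} [NormedAddCommGroup H] [InnerProductSpace ℂ H] {ι κ : Type*}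
    (b : ι → H) (hb : Orthonormal ℂ b)
    (hd : (Submodule.span ℂ (range b)).topologicalClosure = ⊤) (φ : H →L[ℂ] ℂ) (B : ℝ)
    (hB : ∀ s : Finset ι, ∑ i ∈ s, ‖φ (b i)‖ ^ 2 ≤ B) (g : κ → H) (hg : Orthonormal ℂ g)
    (s : Finset κ) : ∑ j ∈ s, ‖φ (g j)‖ ^ 2 ≤ B := by
  set y : H := ∑ j ∈ s, (starRingEnd ℂ (φ (g j))) • g j with hy
  set S : ℝ := ∑ j ∈ s, ‖φ (g j)‖ ^ 2 with hS
  have hS0 : 0 ≤ S := Finset.sum_nonneg fun i _ => by positivity
  have hB0 : 0 ≤ B := by simpa using hB ∅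
  have h1 : φ y = (S : ℂ) := by
    rw [hy, map_sum, hS]
    push_cast
    refine Finset.sum_congr rfl fun j _ => ?_
    rw [map_smul, smul_eq_mul, Complex.conj_mul']
  have h2 : ‖y‖ ^ 2 = S := by
    have h3 : ((‖y‖ ^ 2 : ℝ) : ℂ) = ⟪y, y⟫_ℂ := by
      rw [inner_self_eq_norm_sq_to_K]
      norm_cast
    rw [hy, hg.inner_sum] at h3
    have h4 : ∑ i ∈ s, starRingEnd ℂ (starRingEnd ℂ (φ (g i))) * starRingEnd ℂ (φ (g i)) =
        ((S : ℝ) : ℂ) := by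
      rw [hS]
      push_cast
      refine Finset.sum_congr rfl fun j _ => ?_
      rw [Complex.conj_conj, Complex.mul_conj']
    rw [h4] at h3
    exact_mod_cast h3
  have h5 := functional_bound b hb hd φ B hB y
  rw [h1, h2, Complex.norm_real, Real.norm_of_nonneg hS0] at h5
  rcases eq_or_lt_of_le hS0 with h0 | h0
  · rw [← h0]
    exact hB0
  · have : S * S ≤ B * S := by nlinarith
    exact le_of_mul_le_mul_right this h0

theorem hs_bound {H H' : Type*} [NormedAddCommGroup H] [InnerProductSpace ℂ H]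
    [NormedAddCommGroup H'] [InnerProductSpace ℂ H'] {ι κ : Type*}
    (b : ι → H) (hb : Orthonormal ℂ b)
    (hd : (Submodule.span ℂ (range b)).topologicalClosure = ⊤) (T : H →L[ℂ] H')
    (hs : Summable fun i => ‖T (b i)‖ ^ 2) (g : κ → H) (hg : Orthonormal ℂ g)
    (s : Finset κ) : ∑ j ∈ s, ‖T (g j)‖ ^ 2 ≤ ∑' i, ‖T (b i)‖ ^ 2 := by
  classical
  set W : Submodule ℂ H' := Submodule.span ℂ ((fun j => T (g j)) '' (s : Set κ)) with hW
  have hfd : FiniteDimensional ℂ W :=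
    FiniteDimensional.span_of_finite ℂ (s.finite_toSet.image _)
  set w := stdOrthonormalBasis ℂ W with hw
  have hmem : ∀ j ∈ s, T (g j) ∈ W := fun j hj => Submodule.subset_span ⟨j, hj, rfl⟩
  have hpars : ∀ x ∈ W, ‖x‖ ^ 2 = ∑ l, ‖⟪((w l : W) : H'), x⟫_ℂ‖ ^ 2 := by
    intro x hx
    have h1 := w.sum_sq_norm_inner_right ⟨x, hx⟩
    rw [Submodule.coe_norm] at h1
    simp only [Submodule.coe_inner] at h1
    exact h1.symm
  have hwo : Orthonormal ℂ (fun l => ((w l : W) : H')) := by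
    have := w.orthonormal
    exact this.comp_linearIsometry W.subtypeₗᵢ
  have hbessel : ∀ x : H', ∑ l, ‖⟪((w l : W) : H'), x⟫_ℂ‖ ^ 2 ≤ ‖x‖ ^ 2 := fun x =>
    hwo.sum_inner_products_le x
  have hl : ∀ l, ∑ j ∈ s, ‖⟪((w l : W) : H'), T (g j)⟫_ℂ‖ ^ 2 ≤
      ∑' i, ‖⟪((w l : W) : H'), T (b i)⟫_ℂ‖ ^ 2 := by
    intro l
    have hsum : Summable fun i => ‖⟪((w l : W) : H'), T (b i)⟫_ℂ‖ ^ 2 := by
      refine Summable.of_nonneg_of_le (fun i => by positivity) (fun i => ?_) hs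
      exact (Finset.single_le_sum (f := fun l => ‖⟪((w l : W) : H'), T (b i)⟫_ℂ‖ ^ 2)
        (fun l _ => by positivity) (Finset.mem_univ l)).trans (hbessel _)
    exact functional_hs b hb hd ((innerSL ℂ ((w l : W) : H')).comp T) _
      (fun s => hsum.sum_le_tsum s (fun i _ => by positivity)) g hg s
  have hsum : ∀ l, Summable fun i => ‖⟪((w l : W) : H'), T (b i)⟫_ℂ‖ ^ 2 := by
    intro l
    refine Summable.of_nonneg_of_le (fun i => by positivity) (fun i => ?_) hs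
    exact (Finset.single_le_sum (f := fun l => ‖⟪((w l : W) : H'), T (b i)⟫_ℂ‖ ^ 2)
      (fun l _ => by positivity) (Finset.mem_univ l)).trans (hbessel _)
  calc ∑ j ∈ s, ‖T (g j)‖ ^ 2 = ∑ j ∈ s, ∑ l, ‖⟪((w l : W) : H'), T (g j)⟫_ℂ‖ ^ 2 :=
        Finset.sum_congr rfl fun j hj => hpars _ (hmem j hj)
    _ = ∑ l, ∑ j ∈ s, ‖⟪((w l : W) : H'), T (g j)⟫_ℂ‖ ^ 2 := Finset.sum_comm
    _ ≤ ∑ l, ∑' i, ‖⟪((w l : W) : H'), T (b i)⟫_ℂ‖ ^ 2 := Finset.sum_le_sum fun l _ => hl l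
    _ = ∑' i, ∑ l, ‖⟪((w l : W) : H'), T (b i)⟫_ℂ‖ ^ 2 :=
        (Summable.tsum_finsetSum fun l _ => hsum l).symm
    _ ≤ ∑' i, ‖T (b i)‖ ^ 2 := by
        refine Summable.tsum_le_tsum (fun i => hbessel _) ?_ hs
        exact summable_sum fun l _ => hsum l

end Pool.Agent.R234.HK
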