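import Mathlib

/-! A lemma on sequences. -/

set_option autoImplicit false

open Set Filter Topology
open scoped ENNReal

namespace Pool.Agent.R234.HK

theorem chain (x : ℤ → ℝ≥0∞) (τ : ℤ → ℝ) (c : ℝ) (hc : 0 < c) (hτ : ∀ m, 0 ≤ τ m)
    (hx0 : x 0 ≠ ⊤) (hxp : ∀ m, x m ≠ 0)
    (hstar : ∀ m, x m ≠ ⊤ → ENNReal.ofReal c * x (m + 1) ≤
      ENNReal.ofReal (τ m) + ENNReal.ofReal c * (x m ^ 2 / x (m - 1)))
    (s' s₂ s₁ s : ℝ) (h0 : 0 < s') (h1 : s' < s₂) (h2 : s₂ < s₁) (h3 : s₁ < s)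
    (ν₀ ν₁ : ℝ≥0∞) (hν₀ : ν₀ ≠ 0) (hν₁ : ν₁ ≠ 0)
    (hg1 : ∀ m : ℕ, ENNReal.ofReal s ^ m * ν₀ ≤ x m)
    (hg2 : ∀ m : ℕ, (ENNReal.ofReal s')⁻¹ ^ m * ν₁ ≤ x (-m)) :
    ∃ (a : ℤ) (N : ℕ), (∀ i < N, x (a + i) ≠ ⊤) ∧
      c * (s₁ - s₂) ≤ ∑ i ∈ Finset.range N, τ (a + i) / (x (a + i)).toReal := by
  have hs2 : 0 < s₂ := h0.trans h1
  have hs1 : 0 < s₁ := hs2.trans h2
  have hs : 0 < s := hs1.trans h3
  have hc' : ENNReal.ofReal c ≠ 0 := by rw [Ne, ENNReal.ofReal_eq_zero, not_le]; exact hc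
  -- forward finiteness
  have hfin : ∀ m : ℕ, x m ≠ ⊤ := by
    intro m
    induction m with
    | zero => exact_mod_cast hx0
    | succ m ih =>
      have h4 := hstar m ih
      have h5 : ENNReal.ofReal (τ m) + ENNReal.ofReal c * (x m ^ 2 / x (m - 1)) ≠ ⊤ := by
        refine ENNReal.add_ne_top.2 ⟨ENNReal.ofReal_ne_top, ENNReal.mul_ne_top
          ENNReal.ofReal_ne_top (ENNReal.div_ne_top (ENNReal.pow_ne_top ih) (hxp _))⟩
      have h6 := ne_top_of_le_ne_top h5 h4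
      intro h7
      push_cast at h7
      rw [h7, ENNReal.mul_top hc'] at h6
      exact h6 rfl
  set y : ℤ → ℝ := fun m => (x m).toReal with hy
  have hypos : ∀ m, x m ≠ ⊤ → 0 < y m := fun m hm => ENNReal.toReal_pos (hxp m) hm
  -- upper index
  obtain ⟨M, hM⟩ : ∃ M : ℕ, s₁ * y M ≤ y (M + 1) := by
    by_contra hcon
    push Not at hcon
    have hle : ∀ M : ℕ, y M ≤ s₁ ^ M * y 0 := by
      intro M
      induction M with
      | zero => simp
      | succ M ih =>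
        have h4 := hcon M
        push_cast
        calc y (M + 1) ≤ s₁ * y M := h4.le
          _ ≤ s₁ * (s₁ ^ M * y 0) := mul_le_mul_of_nonneg_left ih hs1.le
          _ = _ := by ring
    have hν₀t : ν₀ ≠ ⊤ := by
      have := hg1 0
      rw [pow_zero, one_mul] at this
      exact ne_top_of_le_ne_top (hfin 0) this
    have hν₀p : 0 < ν₀.toReal := ENNReal.toReal_pos hν₀ hν₀t
    have hge : ∀ M : ℕ, s ^ M * ν₀.toReal ≤ y M := by
      intro M
      have h4 := hg1 M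
      have h5 := ENNReal.toReal_mono (hfin M) h4
      rwa [ENNReal.toReal_mul, ENNReal.toReal_pow, ENNReal.toReal_ofReal hs.le] at h5
    have hr : 1 < s / s₁ := (one_lt_div hs1).2 h3
    obtain ⟨M, hM⟩ := pow_unbounded_of_one_lt (y 0 / ν₀.toReal) hr
    have h6 := (hge M).trans (hle M)
    rw [div_lt_iff₀ hν₀p, div_pow] at hM
    have h7 : s₁ ^ M * y 0 < s ^ M * ν₀.toReal := by
      have h8 : 0 < s₁ ^ M := by positivity
      calc s₁ ^ M * y 0 < s₁ ^ M * (s ^ M / s₁ ^ M * ν₀.toReal) := mul_lt_mul_of_pos_left hM h8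
        _ = _ := by field_simp
    linarith
  -- lower index
  have hlow : ∃ m : ℕ, x (-m) ≤ ENNReal.ofReal s₂ * x (-m - 1) := by
    by_contra hcon
    push Not at hcon
    have hs2' : ENNReal.ofReal s₂ ≠ 0 := by rw [Ne, ENNReal.ofReal_eq_zero, not_le]; exact hs2
    have hle : ∀ m : ℕ, ENNReal.ofReal s₂ ^ m * x (-m) ≤ x 0 := by
      intro m
      induction m with
      | zero => simp
      | succ m ih =>
        have h4 := hcon m
        have h5 : (-((m + 1 : ℕ) : ℤ)) = -m - 1 := by push_cast; ring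
        rw [h5]
        calc ENNReal.ofReal s₂ ^ (m + 1) * x (-m - 1)
            = ENNReal.ofReal s₂ ^ m * (ENNReal.ofReal s₂ * x (-m - 1)) := by ring
          _ ≤ ENNReal.ofReal s₂ ^ m * x (-m) := mul_le_mul' le_rfl h4.le
          _ ≤ _ := ih
    have hν₁t : ν₁ ≠ ⊤ := by
      have := hg2 0
      rw [pow_zero, one_mul] at this
      have h5 : x (-((0 : ℕ) : ℤ)) ≠ ⊤ := by simpa using hx0
      exact ne_top_of_le_ne_top h5 this
    have hν₁p : 0 < ν₁.toReal := ENNReal.toReal_pos hν₁ hν₁t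
    have hge : ∀ m : ℕ, (s₂ / s') ^ m * ν₁.toReal ≤ y 0 := by
      intro m
      have h4 : ENNReal.ofReal s₂ ^ m * ((ENNReal.ofReal s')⁻¹ ^ m * ν₁) ≤ x 0 :=
        (mul_le_mul' le_rfl (hg2 m)).trans (hle m)
      have h5 := ENNReal.toReal_mono hx0 h4
      rw [ENNReal.toReal_mul, ENNReal.toReal_mul, ENNReal.toReal_pow, ENNReal.toReal_pow,
        ENNReal.toReal_ofReal hs2.le, ENNReal.toReal_inv, ENNReal.toReal_ofReal h0.le] at h5
      calc (s₂ / s') ^ m * ν₁.toReal = s₂ ^ m * (s'⁻¹ ^ m * ν₁.toReal) := by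
            rw [div_eq_mul_inv, mul_pow]; ring
        _ ≤ _ := h5
    have hr : 1 < s₂ / s' := (one_lt_div h0).2 h1
    obtain ⟨m, hm⟩ := pow_unbounded_of_one_lt (y 0 / ν₁.toReal) hr
    rw [div_lt_iff₀ hν₁p] at hm
    exact absurd (hge m) (not_le.2 hm)
  classical
  set M' : ℕ := Nat.find hlow with hM'
  have hM'1 : x (-M') ≤ ENNReal.ofReal s₂ * x (-M' - 1) := Nat.find_spec hlow
  have hM'2 : ∀ j : ℕ, j < M' → ENNReal.ofReal s₂ * x (-j - 1) < x (-j) := fun j hj =>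
    not_le.1 (Nat.find_min hlow hj)
  have hs2' : ENNReal.ofReal s₂ ≠ 0 := by rw [Ne, ENNReal.ofReal_eq_zero, not_le]; exact hs2
  have hfin' : ∀ j : ℕ, j ≤ M' → x (-j) ≠ ⊤ := by
    intro j hj
    cases j with
    | zero => simpa using hx0
    | succ j =>
      have h4 := hM'2 j (by omega)
      intro h5
      have h6 : (-((j + 1 : ℕ) : ℤ)) = -j - 1 := by push_cast; ring
      rw [h6] at h5
      rw [h5, ENNReal.mul_top hs2'] at h4
      exact not_top_lt h4
  have hfinall : ∀ m : ℤ, -(M' : ℤ) ≤ m → x m ≠ ⊤ := by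
    intro m hm
    rcases le_or_gt 0 m with h | h
    · obtain ⟨k, rfl⟩ := Int.eq_ofNat_of_zero_le h
      exact hfin k
    · obtain ⟨k, hk⟩ := Int.eq_ofNat_of_zero_le (by omega : 0 ≤ -m)
      have : m = -(k : ℤ) := by omega
      rw [this]
      exact hfin' k (by omega)
  set r : ℤ → ℝ := fun m => y (m + 1) / y m with hr
  have hstep : ∀ m : ℤ, -(M' : ℤ) ≤ m → c * (r m - r (m - 1)) ≤ τ m / y m := by
    intro m hm
    have hmf := hfinall m hm
    have hm1 := hfinall (m + 1) (by omega)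
    have h4 := hstar m hmf
    have h5 : ENNReal.ofReal c * (x m ^ 2 / x (m - 1)) ≠ ⊤ :=
      ENNReal.mul_ne_top ENNReal.ofReal_ne_top (ENNReal.div_ne_top (ENNReal.pow_ne_top hmf) (hxp _))
    have h6 := ENNReal.toReal_mono (ENNReal.add_ne_top.2 ⟨ENNReal.ofReal_ne_top, h5⟩) h4
    rw [ENNReal.toReal_add ENNReal.ofReal_ne_top h5, ENNReal.toReal_mul, ENNReal.toReal_mul,
      ENNReal.toReal_ofReal hc.le, ENNReal.toReal_ofReal (hτ m), ENNReal.toReal_div,
      ENNReal.toReal_pow] at h6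
    have hym := hypos m hmf
    have h7 : r (m - 1) = y m / y (m - 1) := by
      rw [hr]
      simp only
      rw [sub_add_cancel]
    rw [h7, le_div_iff₀ hym]
    have h8 : c * (r m - y m / y (m - 1)) * y m = c * y (m + 1) - c * (y m ^ 2 / y (m - 1)) := by
      rw [hr]
      simp only
      field_simp
    rw [h8]
    linarith
  refine ⟨-(M' : ℤ), M' + M + 1, fun i _ => hfinall _ (by omega), ?_⟩
  have hsum : ∑ i ∈ Finset.range (M' + M + 1), (r (-(M' : ℤ) + i) - r (-(M' : ℤ) + i - 1)) =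
      r M - r (-(M' : ℤ) - 1) := by
    have := Finset.sum_range_sub (fun i : ℕ => r (-(M' : ℤ) + i - 1)) (M' + M + 1)
    have h4 : ∀ i : ℕ, r (-(M' : ℤ) + (i + 1 : ℕ) - 1) = r (-(M' : ℤ) + i) := by
      intro i
      congr 1
      push_cast
      ring
    simp_rw [h4] at this
    rw [this]
    congr 2
    · push_cast
      ring
    · push_cast
      ring
  have hrM : s₁ ≤ r M := by
    rw [hr]
    simp only
    rw [le_div_iff₀ (hypos M (hfin M))]
    exact hM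
  have hrM' : r (-(M' : ℤ) - 1) ≤ s₂ := by
    have h7 : r (-(M' : ℤ) - 1) = y (-(M' : ℤ)) / y (-(M' : ℤ) - 1) := by
      rw [hr]
      simp only
      rw [sub_add_cancel]
    rw [h7]
    by_cases ht : x (-(M' : ℤ) - 1) = ⊤
    · have : y (-(M' : ℤ) - 1) = 0 := by
        rw [hy]
        simp only
        rw [ht, ENNReal.toReal_top]
      rw [this, div_zero]
      exact hs2.le
    · rw [div_le_iff₀ (hypos _ ht)]
      have h8 := ENNReal.toReal_mono (ENNReal.mul_ne_top ENNReal.ofReal_ne_top ht) hM'1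
      rwa [ENNReal.toReal_mul, ENNReal.toReal_ofReal hs2.le] at h8
  calc c * (s₁ - s₂) ≤ c * (r M - r (-(M' : ℤ) - 1)) :=
        mul_le_mul_of_nonneg_left (by linarith) hc.le
    _ = ∑ i ∈ Finset.range (M' + M + 1), c * (r (-(M' : ℤ) + i) - r (-(M' : ℤ) + i - 1)) := by
        rw [← hsum, Finset.mul_sum]
    _ ≤ _ := Finset.sum_le_sum fun i _ => hstep _ (by omega)

end Pool.Agent.R234.HK
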