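import Mathlib
import Pool.Agent.R234.HK.F
import Pool.Agent.R234.HK.G
import Pool.Agent.R234.HK.H

/-! Growth along chains, Fourier uniqueness, conclusion. -/

set_option autoImplicit false

open MeasureTheory Metric Set Filter Topology Complex
open scoped ENNReal InnerProductSpace

namespace Pool.Agent.R234.HK

variable {n : ℕ}

theorem fourier_unique (F : Tn n → ℂ) (hF : Continuous F)
    (h : ∀ κ : Fin n → ℤ, κ ≠ 0 → ∫ t, ch (-κ) t * F t ∂(muT n) = 0) (t : Tn n) :
    F t = ∫ s, F s ∂(muT n) := by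
  set m : ℂ := ∫ s, F s ∂(muT n) with hm
  set F₀ : C(Tn n, ℂ) := ⟨fun t => F t - m, hF.sub continuous_const⟩ with hF₀
  have hint : ∀ g : C(Tn n, ℂ), Integrable (fun t => g t * F₀ t) (muT n) := fun g =>
    (g.continuous.mul F₀.continuous).integrable_of_hasCompactSupport
      (HasCompactSupport.of_compactSpace _)
  have hFi : Integrable F (muT n) :=
    hF.integrable_of_hasCompactSupport (HasCompactSupport.of_compactSpace _)
  have hch : ∀ κ : Fin n → ℤ, Integrable (ch κ) (muT n) := fun κ =>
    (ch_continuous κ).integrable_of_hasCompactSupport (HasCompactSupport.of_compactSpace _)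
  have hch0 : ∀ κ : Fin n → ℤ, κ ≠ 0 → ∫ t, ch κ t ∂(muT n) = 0 := by
    intro κ hκ
    obtain ⟨j, hj⟩ : ∃ j, κ j ≠ 0 := Function.ne_iff.1 hκ
    set d : ℤ := κ j with hd
    have hd0 : (d : ℝ) ≠ 0 := by exact_mod_cast hj
    set t : Tn n := Pi.single j (((1 / (2 * (d : ℝ)) : ℝ)) : AddCircle (1 : ℝ)) with ht
    have hcht : ch κ t = -1 := by
      unfold ch
      rw [Finset.prod_eq_single j]
      · rw [ht, Pi.single_eq_same, fourier_coe_apply, ← hd]
        have : 2 * (Real.pi : ℂ) * I * (d : ℂ) * ((1 / (2 * (d : ℝ)) : ℝ) : ℂ) / ((1 : ℝ) : ℂ) =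
            Real.pi * I := by
          have hd1 : (d : ℂ) ≠ 0 := by exact_mod_cast hd0
          push_cast
          field_simp
        rw [this, Complex.exp_pi_mul_I]
      · intro i _ hi
        rw [ht, Pi.single_eq_of_ne hi, fourier_eval_zero]
      · intro h
        exact absurd (Finset.mem_univ j) h
    have h1 := integral_add_right_eq_self (μ := muT n) (fun s => ch κ s) t
    simp_rw [ch_add, hcht] at h1
    rw [integral_mul_const] at h1
    have h4 : (2 : ℂ) * ∫ s, ch κ s ∂(muT n) = 0 := by linear_combination -h1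
    rcases mul_eq_zero.1 h4 with h5 | h5
    · norm_num at h5
    · exact h5
  have horth : ∀ κ : Fin n → ℤ, ∫ t, ch κ t * F₀ t ∂(muT n) = 0 := by
    intro κ
    have h1 : ∫ t, ch κ t * F₀ t ∂(muT n) =
        ∫ t, ch κ t * F t ∂(muT n) - (∫ t, ch κ t ∂(muT n)) * m := by
      rw [← integral_mul_const, ← integral_sub]
      · refine integral_congr_ae (Filter.Eventually.of_forall fun t => ?_)
        simp only [hF₀, ContinuousMap.coe_mk]
        ring
      · exact ((ch_continuous κ).mul hF).integrable_of_hasCompactSupport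
          (HasCompactSupport.of_compactSpace _)
      · exact (hch κ).mul_const _
    rw [h1]
    by_cases hκ : κ = 0
    · subst hκ
      simp only [ch_zero, one_mul]
      simp [hm]
    · have h2 := h (-κ) (by
        intro h0
        apply hκ
        have := congrArg Neg.neg h0
        rwa [neg_neg, neg_zero] at this)
      rw [neg_neg] at h2
      rw [h2, hch0 κ hκ]
      ring
  have hspan : ∀ g ∈ Submodule.span ℂ (range (UnitAddTorus.mFourier (d := Fin n))),
      ∫ t, g t * F₀ t ∂(muT n) = 0 := by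
    intro g hg
    induction hg using Submodule.span_induction with
    | mem x hx =>
      obtain ⟨κ, rfl⟩ := hx
      exact horth κ
    | zero => simp
    | add x y _ _ hx hy =>
      have : ∀ t, (x + y) t * F₀ t = x t * F₀ t + y t * F₀ t := fun t => by
        rw [ContinuousMap.add_apply, add_mul]
      simp_rw [this]
      rw [integral_add (hint x) (hint y), hx, hy, add_zero]
    | smul a x _ hx =>
      have : ∀ t, (a • x) t * F₀ t = a * (x t * F₀ t) := fun t => by
        rw [ContinuousMap.smul_apply, smul_eq_mul, mul_assoc]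
      simp_rw [this]
      rw [integral_const_mul, hx, mul_zero]
  have hall : ∀ g : C(Tn n, ℂ), ∫ t, g t * F₀ t ∂(muT n) = 0 := by
    intro g
    have hg : g ∈ (Submodule.span ℂ (range (UnitAddTorus.mFourier (d := Fin n)))).topologicalClosure := by
      rw [UnitAddTorus.span_mFourier_closure_eq_top]
      trivial
    by_contra hne
    set δ : ℝ := ‖∫ t, g t * F₀ t ∂(muT n)‖ with hδ
    have hδ0 : 0 < δ := norm_pos_iff.2 hne
    have hg' : g ∈ closure ((Submodule.span ℂ (range (UnitAddTorus.mFourier (d := Fin n))) :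
        Submodule ℂ C(Tn n, ℂ)) : Set C(Tn n, ℂ)) := hg
    obtain ⟨g', hg'1, hg'2⟩ := Metric.mem_closure_iff.1 hg' (δ / (‖F₀‖ + 1)) (by positivity)
    have h1 : ∫ t, g t * F₀ t ∂(muT n) = ∫ t, (g - g') t * F₀ t ∂(muT n) := by
      have : ∀ t, (g - g') t * F₀ t = g t * F₀ t - g' t * F₀ t := fun t => by
        rw [ContinuousMap.sub_apply, sub_mul]
      simp_rw [this]
      rw [integral_sub (hint g) (hint g'), hspan g' hg'1, sub_zero]
    have h2 : δ ≤ ‖g - g'‖ * ‖F₀‖ := by
      rw [hδ, h1]
      have h3 := norm_integral_le_of_norm_le_const (μ := muT n)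
        (f := fun t => (g - g') t * F₀ t) (C := ‖g - g'‖ * ‖F₀‖)
        (Filter.Eventually.of_forall fun t => by
          rw [norm_mul]
          exact mul_le_mul ((g - g').norm_coe_le_norm t) (F₀.norm_coe_le_norm t) (norm_nonneg _)
            (norm_nonneg _))
      simpa using h3
    rw [dist_eq_norm] at hg'2
    have h4 : ‖g - g'‖ * ‖F₀‖ ≤ ‖g - g'‖ * (‖F₀‖ + 1) :=
      mul_le_mul_of_nonneg_left (by linarith) (norm_nonneg _)
    have h5 : ‖g - g'‖ * (‖F₀‖ + 1) < δ := by
      rwa [lt_div_iff₀ (by positivity)] at hg'2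
    linarith
  have hsq := hall (star F₀)
  have h1 : ∫ t, ‖F₀ t‖ ^ 2 ∂(muT n) = 0 := by
    have h2 : ∀ t, (star F₀) t * F₀ t = ((‖F₀ t‖ ^ 2 : ℝ) : ℂ) := by
      intro t
      rw [ContinuousMap.star_apply]
      push_cast
      exact Complex.conj_mul' (F₀ t)
    simp_rw [h2] at hsq
    rw [integral_complex_ofReal] at hsq
    exact_mod_cast hsq
  have hcont : Continuous fun t => ‖F₀ t‖ ^ 2 := by fun_prop
  have h2 := (hcont.integral_pos_of_hasCompactSupport_nonneg_nonzero
    (HasCompactSupport.of_compactSpace _) (fun t => by positivity) (μ := muT n) (x := t))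
  have h3 : F₀ t = 0 := by
    by_contra hne
    have h4 : ‖F₀ t‖ ^ 2 ≠ 0 := by
      have : 0 < ‖F₀ t‖ := norm_pos_iff.2 hne
      positivity
    have h5 := h2 h4
    rw [h1] at h5
    exact lt_irrefl _ h5
  have h4 : F₀ t = F t - m := rfl
  rw [h4] at h3
  exact sub_eq_zero.1 h3

end Pool.Agent.R234.HK
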