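import Mathlib
import Pool.Agent.R234.HK.I

/-! Growth along chains and conclusion. -/

set_option autoImplicit false

open MeasureTheory Metric Set Filter Topology Complex
open scoped ENNReal InnerProductSpace

namespace Pool.Agent.R234.HK

variable {n : ℕ}

theorem mon_smul (κ : Fin n → ℤ) (m : ℤ) (z : Fin n → ℂ) : mon (m • κ) z = mon κ z ^ m := by
  unfold mon
  rw [← Finset.prod_zpow]
  refine Finset.prod_congr rfl fun j _ => ?_
  rw [Pi.smul_apply, smul_eq_mul, mul_comm, zpow_mul]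

/-- growth in the positive direction -/
theorem growth_up {Ω U : Set (Fin n → ℂ)} (hU : IsOpen U) (hUΩ : U ⊆ st Ω) (κ α : Fin n → ℤ) (s : ℝ)
    (hs : 0 < s) (hh : ∀ z ∈ U, s ≤ ‖mon κ z‖ ^ 2) (m : ℕ) :
    ENNReal.ofReal s ^ m * CC U α ≤ CC Ω (α + (m : ℤ) • κ) := by
  have h1 : ENNReal.ofReal s ^ m * CC U α ≤ CC U (α + (m : ℤ) • κ) := by
    unfold CC
    rw [← lintegral_const_mul' _ _ (ENNReal.pow_ne_top ENNReal.ofReal_ne_top)]
    refine setLIntegral_mono' hU.measurableSet fun z hz => ?_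
    rw [mon_add _ _ _ (hUΩ hz).2, mon_smul, norm_mul, norm_zpow, zpow_natCast, ← ENNReal.ofReal_pow hs.le,
      ← ENNReal.ofReal_mul (by positivity)]
    refine ENNReal.ofReal_le_ofReal ?_
    calc s ^ m * ‖mon α z‖ ^ 2 ≤ (‖mon κ z‖ ^ 2) ^ m * ‖mon α z‖ ^ 2 :=
          mul_le_mul_of_nonneg_right (pow_le_pow_left₀ hs.le (hh z hz) m) (by positivity)
      _ = (‖mon α z‖ * ‖mon κ z‖ ^ m) ^ 2 := by ring
  exact h1.trans (CC_mono (fun z hz => (hUΩ hz).1) _)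

/-- growth in the negative direction -/
theorem growth_down {Ω U : Set (Fin n → ℂ)} (hU : IsOpen U) (hUΩ : U ⊆ st Ω) (κ α : Fin n → ℤ)
    (s : ℝ) (hs : 0 < s) (hh : ∀ z ∈ U, ‖mon κ z‖ ^ 2 ≤ s) (m : ℕ) :
    (ENNReal.ofReal s)⁻¹ ^ m * CC U α ≤ CC Ω (α + (-(m : ℤ)) • κ) := by
  have h1 : (ENNReal.ofReal s)⁻¹ ^ m * CC U α ≤ CC U (α + (-(m : ℤ)) • κ) := by
    unfold CC
    rw [← ENNReal.ofReal_inv_of_pos hs,
      ← lintegral_const_mul' _ _ (ENNReal.pow_ne_top ENNReal.ofReal_ne_top)]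
    refine setLIntegral_mono' hU.measurableSet fun z hz => ?_
    rw [mon_add _ _ _ (hUΩ hz).2, mon_smul, norm_mul, norm_zpow, zpow_neg, zpow_natCast,
      ← ENNReal.ofReal_pow (by positivity), ← ENNReal.ofReal_mul (by positivity)]
    refine ENNReal.ofReal_le_ofReal ?_
    have h0 : 0 < ‖mon κ z‖ := norm_pos_iff.2 (mon_ne_zero κ z fun j => Or.inl ((hUΩ hz).2 j))
    calc s⁻¹ ^ m * ‖mon α z‖ ^ 2 ≤ ((‖mon κ z‖ ^ 2)⁻¹) ^ m * ‖mon α z‖ ^ 2 :=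
          mul_le_mul_of_nonneg_right (pow_le_pow_left₀ (by positivity)
            (inv_anti₀ (by positivity) (hh z hz)) m) (by positivity)
      _ = (‖mon α z‖ * (‖mon κ z‖ ^ m)⁻¹) ^ 2 := by
          rw [inv_pow, mul_pow, inv_pow]
          ring
  exact h1.trans (CC_mono (fun z hz => (hUΩ hz).1) _)

/-- the modulus of a nontrivial monomial is not constant -/
theorem levels {Ω : Set (Fin n → ℂ)} (hΩ : IsOpen Ω) (hne : Ω.Nonempty) (κ : Fin n → ℤ)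
    (hκ : κ ≠ 0) : ∃ s' s₂ s₁ s : ℝ, 0 < s' ∧ s' < s₂ ∧ s₂ < s₁ ∧ s₁ < s ∧
      (∃ z ∈ st Ω, s < ‖mon κ z‖ ^ 2) ∧ (∃ z ∈ st Ω, ‖mon κ z‖ ^ 2 < s') := by
  obtain ⟨j, hj⟩ : ∃ j, κ j ≠ 0 := Function.ne_iff.1 hκ
  obtain ⟨p₀, hp₀⟩ := hne
  obtain ⟨p, hp, hpj⟩ := perturb hΩ hp₀
  obtain ⟨r, hr, hb⟩ := Metric.isOpen_iff.1 (st_open hΩ) p ⟨hp, hpj⟩
  -- the two points
  set ε : ℝ := r / (2 * (‖p j‖ + 1)) with hε
  have hpj0 : 0 < ‖p j‖ := norm_pos_iff.2 (hpj j)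
  have hε0 : 0 < ε := by positivity
  have hmem : Function.update p j (((1 + ε : ℝ) : ℂ) * p j) ∈ st Ω := by
    refine hb ?_
    rw [mem_ball, dist_pi_lt_iff hr]
    intro i
    by_cases h : i = j
    · subst h
      rw [Function.update_self, dist_eq_norm]
      have : ((1 + ε : ℝ) : ℂ) * p i - p i = (ε : ℂ) * p i := by push_cast; ring
      rw [this, norm_mul, Complex.norm_real, Real.norm_of_nonneg hε0.le, hε]
      rw [div_mul_eq_mul_div, div_lt_iff₀ (by positivity)]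
      nlinarith
    · rw [Function.update_of_ne h, dist_self]
      exact hr
  have hval : ‖mon κ (Function.update p j (((1 + ε : ℝ) : ℂ) * p j))‖ ^ 2 =
      ((1 + ε) ^ κ j) ^ 2 * ‖mon κ p‖ ^ 2 := by
    have h1 : mon κ (Function.update p j (((1 + ε : ℝ) : ℂ) * p j)) =
        ((1 + ε : ℝ) : ℂ) ^ κ j * mon κ p := by
      unfold mon
      rw [← Finset.mul_prod_erase Finset.univ _ (Finset.mem_univ j),
        ← Finset.mul_prod_erase Finset.univ (fun i => p i ^ κ i) (Finset.mem_univ j)]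
      rw [Function.update_self, mul_zpow, mul_assoc]
      congr 2
      refine Finset.prod_congr rfl fun i hi => ?_
      rw [Function.update_of_ne (Finset.ne_of_mem_erase hi)]
    rw [h1, norm_mul, norm_zpow, Complex.norm_real, Real.norm_of_nonneg (by positivity), mul_pow]
  have hm0 : 0 < ‖mon κ p‖ ^ 2 := by
    have : 0 < ‖mon κ p‖ := norm_pos_iff.2 (mon_ne_zero κ p fun j => Or.inl (hpj j))
    positivity
  have hne1 : (1 + ε) ^ κ j ≠ 1 := by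
    intro h
    have h1 : (1 : ℝ) < 1 + ε := by linarith
    exact hj ((zpow_eq_one_iff_right₀ (by linarith) h1.ne').1 h)
  have hne2 : ‖mon κ (Function.update p j (((1 + ε : ℝ) : ℂ) * p j))‖ ^ 2 ≠ ‖mon κ p‖ ^ 2 := by
    rw [hval]
    intro h
    have h1 : ((1 + ε) ^ κ j) ^ 2 = 1 := by
      have : ((1 + ε) ^ κ j) ^ 2 * ‖mon κ p‖ ^ 2 = 1 * ‖mon κ p‖ ^ 2 := by rw [h, one_mul]
      exact mul_right_cancel₀ hm0.ne' this
    have h2 : 0 < (1 + ε) ^ κ j := by positivity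
    exact hne1 ((pow_eq_one_iff_of_nonneg h2.le (by norm_num)).1 h1)
  have main : ∀ (a b : ℝ), 0 < a → a < b → (∃ z ∈ st Ω, ‖mon κ z‖ ^ 2 = a) →
      (∃ z ∈ st Ω, ‖mon κ z‖ ^ 2 = b) →
      ∃ s' s₂ s₁ s : ℝ, 0 < s' ∧ s' < s₂ ∧ s₂ < s₁ ∧ s₁ < s ∧
      (∃ z ∈ st Ω, s < ‖mon κ z‖ ^ 2) ∧ (∃ z ∈ st Ω, ‖mon κ z‖ ^ 2 < s') := by
    intro a b ha hab ⟨z, hz, hza⟩ ⟨w, hw, hwb⟩
    refine ⟨a + (b - a) / 5, a + 2 * (b - a) / 5, a + 3 * (b - a) / 5, a + 4 * (b - a) / 5,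
      by linarith, by linarith, by linarith, by linarith, ⟨w, hw, ?_⟩, ⟨z, hz, ?_⟩⟩
    · rw [hwb]; linarith
    · rw [hza]; linarith
  have hm1 : 0 < ‖mon κ (Function.update p j (((1 + ε : ℝ) : ℂ) * p j))‖ ^ 2 := by
    rw [hval]
    positivity
  rcases lt_or_gt_of_ne hne2 with h | h
  · exact main _ _ hm1 h ⟨_, hmem, rfl⟩ ⟨p, ⟨hp, hpj⟩, rfl⟩
  · exact main _ _ hm0 h ⟨p, ⟨hp, hpj⟩, rfl⟩ ⟨_, hmem, rfl⟩

/-- admissible exponents -/
def Adm (Ω : Set (Fin n → ℂ)) := {γ : Fin n → ℤ // Hol Ω γ ∧ CC Ω γ ≠ ⊤}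

theorem CC_ne_zero {Ω : Set (Fin n → ℂ)} (hΩ : IsOpen Ω) (hne : Ω.Nonempty) (γ : Fin n → ℤ) :
    CC Ω γ ≠ 0 := by
  obtain ⟨p, hp⟩ := hne
  obtain ⟨q, hq, hqj⟩ := perturb hΩ hp
  exact (lt_of_lt_of_le (CC_pos (st_open hΩ) ⟨q, hq, hqj⟩ (fun z hz => hz.2) γ)
    (CC_mono (fun z hz => hz.1) _)).ne'

theorem XX_ne_zero {Ω : Set (Fin n → ℂ)} (hΩ : IsOpen Ω) (hne : Ω.Nonempty) (γ : Fin n → ℤ) :
    XX Ω γ ≠ 0 := by
  unfold XX
  split_ifs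
  · exact CC_ne_zero hΩ hne γ
  · exact ENNReal.top_ne_zero

theorem CC_le_XX {Ω : Set (Fin n → ℂ)} (γ : Fin n → ℤ) : CC Ω γ ≤ XX Ω γ := by
  unfold XX
  split_ifs
  · exact le_rfl
  · exact le_top

theorem adm_iff {Ω : Set (Fin n → ℂ)} (γ : Fin n → ℤ) :
    (Hol Ω γ ∧ CC Ω γ ≠ ⊤) ↔ XX Ω γ ≠ ⊤ := by
  unfold XX
  constructor
  · rintro ⟨h1, h2⟩
    rw [if_pos h1]
    exact h2
  · intro h
    by_cases h1 : Hol Ω γ
    · rw [if_pos h1] at h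
      exact ⟨h1, h⟩
    · rw [if_neg h1] at h
      exact absurd rfl h

/-- one chain contributes a fixed amount -/
theorem chain_bound {Ω : Set (Fin n → ℂ)} (hΩ : IsOpen Ω) (hcon : IsConnected Ω) (hR : Rein Ω)
    (hne : Ωᶜ.Nonempty)
    {f : (Fin n → ℂ) → ℂ} (hf : DifferentiableOn ℂ f Ω) (T : bergman Ω →L[ℂ] L2 Ω)
    (hT : ExtendsHankel Ω f T) (hD : Dense {g : bergman Ω | InDom Ω f (g : L2 Ω)})
    (κ : Fin n → ℤ) (hκ : κ ≠ 0) (c : ℂ) (hc0 : c ≠ 0)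
    (hc : ∀ z ∈ Ω, comp κ f z * mon (neg κ) z = c * mon (pos κ) z)
    (e : Adm Ω → bergman Ω)
    (he : ∀ γ, (e γ : L2 Ω) =ᵐ[volume.restrict Ω] mon γ.1)
    (he2 : ∀ γ, ‖e γ‖ ^ 2 = (CC Ω γ.1).toReal) :
    ∃ δ : ℝ, 0 < δ ∧ ∀ α : Adm Ω, ∃ S : Finset (Adm Ω),
      (∀ γ ∈ S, ∃ m : ℤ, γ.1 = α.1 + m • κ) ∧ δ ≤ ∑ γ ∈ S, ‖T (e γ)‖ ^ 2 / ‖e γ‖ ^ 2 := by
  classical
  obtain ⟨s', s₂, s₁, s, h0, h1, h2, h3, ⟨zu, hzu, hzu2⟩, ⟨zd, hzd, hzd2⟩⟩ :=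
    levels hΩ hcon.nonempty κ hκ
  have hcc : 0 < ‖c‖ ^ 2 := by
    have : 0 < ‖c‖ := norm_pos_iff.2 hc0
    positivity
  have hholκ : Hol Ω κ := hol_of_comp hΩ hc hc0
  refine ⟨‖c‖ ^ 2 * (s₁ - s₂), mul_pos hcc (by linarith), fun α => ?_⟩
  have hcont : ContinuousOn (fun z => ‖mon κ z‖ ^ 2) (st Ω) := (mon_contOn κ).norm.pow 2
  set U : Set (Fin n → ℂ) := st Ω ∩ (fun z => ‖mon κ z‖ ^ 2) ⁻¹' Ioi s with hU
  set U' : Set (Fin n → ℂ) := st Ω ∩ (fun z => ‖mon κ z‖ ^ 2) ⁻¹' Iio s' with hU'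
  have hUo : IsOpen U := hcont.isOpen_inter_preimage (st_open hΩ) isOpen_Ioi
  have hUo' : IsOpen U' := hcont.isOpen_inter_preimage (st_open hΩ) isOpen_Iio
  set x : ℤ → ℝ≥0∞ := fun m => XX Ω (α.1 + m • κ) with hx
  set τ : ℤ → ℝ := fun m => if h : Hol Ω (α.1 + m • κ) ∧ CC Ω (α.1 + m • κ) ≠ ⊤ then
    ‖T (e ⟨_, h⟩)‖ ^ 2 else 0 with hτ
  have hτ0 : ∀ m, 0 ≤ τ m := by
    intro m
    rw [hτ]
    simp only
    split_ifs
    · positivity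
    · exact le_rfl
  obtain ⟨a, N, hN1, hN2⟩ := chain x τ (‖c‖ ^ 2) hcc hτ0
    (by
      rw [hx]
      simp only
      rw [zero_smul, add_zero]
      exact (adm_iff _).1 α.2)
    (fun m => XX_ne_zero hΩ hcon.nonempty _)
    (by
      intro m hm
      have hadm := (adm_iff _).2 hm
      have h4 := star_ineq hΩ hcon hR hne hf T hT hD κ c hc (α.1 + m • κ) (e ⟨_, hadm⟩) (he _)
        hadm.2
      have h5 : α.1 + m • κ + κ = α.1 + (m + 1) • κ := by rw [add_smul, one_smul, add_assoc]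
      have h6 : α.1 + m • κ - κ = α.1 + (m - 1) • κ := by
        rw [sub_smul, one_smul, add_sub_assoc]
      rw [h5, h6] at h4
      have h7 : Hol Ω (α.1 + (m + 1) • κ) := by
        intro j hj z hz
        rw [← h5, Pi.add_apply] at hj
        rcases lt_or_ge (κ j) 0 with h | h
        · exact hholκ j h z hz
        · exact hadm.1 j (by omega) z hz
      have h8 : x (m + 1) = CC Ω (α.1 + (m + 1) • κ) := if_pos h7
      have h9 : x m = CC Ω (α.1 + m • κ) := if_pos hadm.1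
      have h10 : τ m = ‖T (e ⟨_, hadm⟩)‖ ^ 2 := by
        rw [hτ]
        simp only
        rw [dif_pos hadm]
      rw [h8, h9, h10]
      exact h4)
    s' s₂ s₁ s h0 h1 h2 h3 (CC U α.1) (CC U' α.1)
    (CC_pos hUo ⟨zu, hzu, hzu2⟩ (fun z hz => hz.1.2) _).ne'
    (CC_pos hUo' ⟨zd, hzd, hzd2⟩ (fun z hz => hz.1.2) _).ne'
    (fun m => (growth_up hUo inter_subset_left κ α.1 s (by linarith)
      (fun z hz => (mem_Ioi.1 hz.2).le) m).trans (CC_le_XX _))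
    (fun m => (growth_down hUo' inter_subset_left κ α.1 s' h0
      (fun z hz => (mem_Iio.1 hz.2).le) m).trans (CC_le_XX _))
  have hadm : ∀ i : ℕ, i < N → Hol Ω (α.1 + (a + i : ℤ) • κ) ∧ CC Ω (α.1 + (a + i : ℤ) • κ) ≠ ⊤ :=
    fun i hi => (adm_iff _).2 (hN1 i hi)
  set F : {i // i ∈ Finset.range N} → Adm Ω := fun i =>
    ⟨_, hadm i.1 (Finset.mem_range.1 i.2)⟩ with hF
  obtain ⟨j, hj⟩ : ∃ j, κ j ≠ 0 := Function.ne_iff.1 hκ
  have hinj : Function.Injective F := by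
    intro i i' hii
    have h4 : α.1 + (a + (i.1 : ℤ)) • κ = α.1 + (a + (i'.1 : ℤ)) • κ := congrArg Subtype.val hii
    have h5 := congrFun h4 j
    simp only [Pi.add_apply, Pi.smul_apply, smul_eq_mul, add_right_inj] at h5
    have h6 := mul_right_cancel₀ hj h5
    apply Subtype.ext
    omega
  refine ⟨(Finset.range N).attach.image F, ?_, ?_⟩
  · intro γ hγ
    rw [Finset.mem_image] at hγ
    obtain ⟨i, _, rfl⟩ := hγ
    exact ⟨_, rfl⟩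
  · rw [Finset.sum_image (fun i _ i' _ h => hinj h)]
    refine hN2.trans (le_of_eq ?_)
    rw [← Finset.sum_attach]
    refine Finset.sum_congr rfl fun i _ => ?_
    have h4 := hadm i.1 (Finset.mem_range.1 i.2)
    have h5 : x (a + i.1) = CC Ω (α.1 + (a + (i.1 : ℤ)) • κ) := if_pos h4.1
    have h6 : τ (a + i.1) = ‖T (e ⟨_, h4⟩)‖ ^ 2 := by
      rw [hτ]
      simp only
      rw [dif_pos h4]
    rw [h5, h6, he2]

end Pool.Agent.R234.HK
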