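import Mathlib

/-!
Hilbert-Schmidt Hankel operators with conjugate holomorphic symbols, in terms of functions.
Everything is for Lebesgue measure on a subset `Ω` of `ℂⁿ = Fin n → ℂ`.
-/

set_option autoImplicit false

open MeasureTheory

namespace Pool.Agent.R234.HK

variable {n : ℕ}

/-- `F` is square integrable on `Ω` -/
def InL2 (Ω : Set (Fin n → ℂ)) (F : (Fin n → ℂ) → ℂ) : Prop := MemLp F 2 (volume.restrict Ω)

/-- `G` is in the Bergman space: holomorphic and square integrable on `Ω` -/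
def InA2 (Ω : Set (Fin n → ℂ)) (G : (Fin n → ℂ) → ℂ) : Prop := DifferentiableOn ℂ G Ω ∧ InL2 Ω G

/-- the inner product of `L²(Ω)`, conjugate linear in the first variable -/
noncomputable def ip (Ω : Set (Fin n → ℂ)) (F G : (Fin n → ℂ) → ℂ) : ℂ :=
  ∫ z in Ω, starRingEnd ℂ (F z) * G z

/-- the square of the norm of `L²(Ω)` -/
noncomputable def nsq (Ω : Set (Fin n → ℂ)) (F : (Fin n → ℂ) → ℂ) : ℝ := ∫ z in Ω, ‖F z‖ ^ 2

/-- equality almost everywhere on `Ω` -/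
def AeEq (Ω : Set (Fin n → ℂ)) (F G : (Fin n → ℂ) → ℂ) : Prop := ∀ᵐ z, z ∈ Ω → F z = G z

/-- `h = (I - P) φ` where `P` is the Bergman projection: `h` is orthogonal to the Bergman space and
`φ - h` belongs to the Bergman space. -/
def IsComplement (Ω : Set (Fin n → ℂ)) (φ h : (Fin n → ℂ) → ℂ) : Prop :=
  InL2 Ω h ∧ (∀ G, InA2 Ω G → ip Ω G h = 0) ∧ ∃ G, InA2 Ω G ∧ AeEq Ω φ (fun z => G z + h z)

/-- `T` is a bounded linear operator from the Bergman space to `L²(Ω)` -/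
def IsBoundedOp (Ω : Set (Fin n → ℂ)) (T : ((Fin n → ℂ) → ℂ) → (Fin n → ℂ) → ℂ) : Prop :=
  (∀ G, InA2 Ω G → InL2 Ω (T G)) ∧
  (∀ (a : ℂ) (G H), InA2 Ω G → InA2 Ω H →
    AeEq Ω (T (fun z => a * G z + H z)) (fun z => a * T G z + T H z)) ∧
  ∃ C : ℝ, ∀ G, InA2 Ω G → nsq Ω (T G) ≤ C * nsq Ω G

/-- `b` is an orthonormal basis of the Bergman space (completeness is the Parseval identity) -/
def IsONB (Ω : Set (Fin n → ℂ)) {ι : Type} (b : ι → (Fin n → ℂ) → ℂ) : Prop :=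
  (∀ i, InA2 Ω (b i)) ∧ (∀ i, nsq Ω (b i) = 1) ∧ (∀ i j, i ≠ j → ip Ω (b i) (b j) = 0) ∧
  ∀ G, InA2 Ω G → HasSum (fun i => ‖ip Ω (b i) G‖ ^ 2) (nsq Ω G)

/-- The Hankel operator `H_{f̄}`, defined by `H_{f̄} g = (I - P)(f̄ g)` on the `g` in the Bergman
space with `f̄ g ∈ L²(Ω)`, is densely defined, and `T` is a Hilbert-Schmidt operator extending it:
for some orthonormal basis `b` of the Bergman space the sum of the `‖T bᵢ‖²` is finite. -/
def IsHilbertSchmidtHankel (Ω : Set (Fin n → ℂ)) (f : (Fin n → ℂ) → ℂ)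
    (T : ((Fin n → ℂ) → ℂ) → (Fin n → ℂ) → ℂ) : Prop :=
  IsBoundedOp Ω T ∧
  (∀ G, InA2 Ω G → ∀ ε : ℝ, 0 < ε → ∃ g, InA2 Ω g ∧ InL2 Ω (fun z => starRingEnd ℂ (f z) * g z) ∧
    nsq Ω (fun z => G z - g z) < ε) ∧
  (∀ g, InA2 Ω g → InL2 Ω (fun z => starRingEnd ℂ (f z) * g z) →
    IsComplement Ω (fun z => starRingEnd ℂ (f z) * g z) (T g)) ∧
  ∃ (ι : Type) (b : ι → (Fin n → ℂ) → ℂ), IsONB Ω b ∧ Summable fun i => nsq Ω (T (b i))

/-- invariance under all the rotations of the coordinates -/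
def IsReinhardt (Ω : Set (Fin n → ℂ)) : Prop :=
  ∀ z ∈ Ω, ∀ θ : Fin n → ℝ, (fun j => Complex.exp (θ j * Complex.I) * z j) ∈ Ω

end Pool.Agent.R234.HK
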