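import Mathlib
import Pool.Agent.R234.HK.J
import Pool.Agent.R234.HK.Stmt

/-! The abstract form of the theorem. -/

set_option autoImplicit false

open MeasureTheory Metric Set Filter Topology
open scoped ENNReal InnerProductSpace

namespace Pool.Agent.R234.HK

variable {n : ℕ}

/-- the operator is Hilbert-Schmidt: the squares of the norms of the images of some orthonormal
basis of the Bergman space are summable. -/
def IsHSab (Ω : Set (Fin n → ℂ)) (T : bergman Ω →L[ℂ] L2 Ω) : Prop :=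
  ∃ (ι : Type) (b : ι → bergman Ω), Orthonormal ℂ b ∧
    (Submodule.span ℂ (range b)).topologicalClosure = ⊤ ∧ Summable fun i => ‖T (b i)‖ ^ 2

theorem rein_of (Ω : Set (Fin n → ℂ)) (h : IsReinhardt Ω) : Rein Ω := by
  intro t z hz
  have h1 : ∀ j, ∃ x : ℝ, (x : AddCircle (1 : ℝ)) = t j := fun j =>
    QuotientAddGroup.mk_surjective (t j)
  choose x hx using h1
  have h2 := h z hz (fun j => 2 * Real.pi * x j)
  have h3 : (fun j => Complex.exp (((2 * Real.pi * x j : ℝ) : ℂ) * Complex.I) * z j) = rot t z := by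
    funext j
    unfold rot
    rw [← hx j, fourier_coe_apply]
    congr 2
    push_cast
    ring
  rw [h3] at h2
  exact h2

/-- the exponent of `z_i ^ q` is admissible on a bounded domain -/
theorem adm_single {Ω : Set (Fin n → ℂ)} (hb : Bornology.IsBounded Ω) (i : Fin n) (q : ℕ) :
    Hol Ω (Pi.single i (q : ℤ)) ∧ CC Ω (Pi.single i (q : ℤ)) ≠ ⊤ := by
  constructor
  · intro j hj
    exfalso
    by_cases h : j = i
    · subst h
      rw [Pi.single_eq_same] at hj
      omega
    · rw [Pi.single_eq_of_ne h] at hj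
      exact lt_irrefl _ hj
  · obtain ⟨B, hB⟩ := hb.exists_norm_le
    have h1 : CC Ω (Pi.single i (q : ℤ)) ≤ ENNReal.ofReal ((max B 0 ^ q) ^ 2) * volume Ω := by
      unfold CC
      rw [← setLIntegral_const]
      have hmon : ∀ z : Fin n → ℂ, mon (Pi.single i (q : ℤ)) z = z i ^ q := by
        intro z
        unfold mon
        rw [Finset.prod_eq_single i]
        · rw [Pi.single_eq_same, zpow_natCast]
        · intro j _ hj
          rw [Pi.single_eq_of_ne hj, zpow_zero]
        · intro h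
          exact absurd (Finset.mem_univ i) h
      have hc : Measurable fun z : Fin n → ℂ => ENNReal.ofReal ((max B 0 ^ q) ^ 2) :=
        measurable_const
      refine setLIntegral_mono hc fun z hz => ?_
      refine ENNReal.ofReal_le_ofReal ?_
      rw [hmon, norm_pow]
      refine pow_le_pow_left₀ (by positivity) (pow_le_pow_left₀ (norm_nonneg _) ?_ q) 2
      exact ((norm_le_pi_norm z i).trans (hB z hz)).trans (le_max_left _ _)
    exact ne_top_of_le_ne_top (ENNReal.mul_ne_top ENNReal.ofReal_ne_top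
      hb.measure_lt_top.ne) h1

/-- the coefficients vanish -/
theorem coeff_zero (hn : 2 ≤ n) {Ω : Set (Fin n → ℂ)} (hΩ : IsOpen Ω) (hcon : IsConnected Ω)
    (hb : Bornology.IsBounded Ω) (hR : Rein Ω) (hne : Ωᶜ.Nonempty)
    {f : (Fin n → ℂ) → ℂ} (hf : DifferentiableOn ℂ f Ω) (T : bergman Ω →L[ℂ] L2 Ω)
    (hT : ExtendsHankel Ω f T) (hD : Dense {g : bergman Ω | InDom Ω f (g : L2 Ω)})
    (hHS : IsHSab Ω T)
    (κ : Fin n → ℤ) (hκ : κ ≠ 0) (c : ℂ)
    (hc : ∀ z ∈ Ω, comp κ f z * mon (neg κ) z = c * mon (pos κ) z) : c = 0 := by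
  classical
  by_contra hc0
  -- monomials in the Bergman space
  have hex : ∀ γ : Adm Ω, ∃ e : bergman Ω, (e : L2 Ω) =ᵐ[volume.restrict Ω] mon γ.1 ∧
      ‖e‖ ^ 2 = (CC Ω γ.1).toReal := fun γ => exists_mon hΩ γ.1 γ.2.1 γ.2.2
  choose e he he2 using hex
  obtain ⟨δ, hδ, hS⟩ := chain_bound hΩ hcon hR hne hf T hT hD κ hκ c hc0 hc e he he2
  obtain ⟨j, hj⟩ : ∃ j, κ j ≠ 0 := Function.ne_iff.1 hκ
  obtain ⟨i, hij⟩ : ∃ i : Fin n, i ≠ j := by
    have : Nontrivial (Fin n) := Fin.nontrivial_iff_two_le.2 hn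
    exact exists_ne j
  choose S hS1 hS2 using fun q : ℕ => hS ⟨_, adm_single hb i q⟩
  have hdisj : ∀ q q' : ℕ, q ≠ q' → Disjoint (S q) (S q') := by
    intro q q' hqq
    rw [Finset.disjoint_left]
    intro γ h1 h2
    obtain ⟨m, hm⟩ := hS1 q γ h1
    obtain ⟨m', hm'⟩ := hS1 q' γ h2
    have h3 : Pi.single i (q : ℤ) + m • κ = Pi.single i (q' : ℤ) + m' • κ := by
      rw [← hm, ← hm']
    have h4 := congrFun h3 j
    simp only [Pi.add_apply, Pi.smul_apply, smul_eq_mul, Pi.single_eq_of_ne hij.symm, zero_add] at h4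
    have h5 : m = m' := mul_right_cancel₀ hj h4
    rw [h5] at h3
    have h6 := congrFun (add_right_cancel h3) i
    rw [Pi.single_eq_same, Pi.single_eq_same] at h6
    exact hqq (by exact_mod_cast h6)
  -- normalised monomials
  have hepos : ∀ γ, 0 < ‖e γ‖ := by
    intro γ
    have h1 : 0 < (CC Ω γ.1).toReal :=
      ENNReal.toReal_pos (CC_ne_zero hΩ hcon.nonempty _) γ.2.2
    rw [← he2] at h1
    by_contra h
    have h2 : ‖e γ‖ = 0 := le_antisymm (not_lt.1 h) (norm_nonneg _)
    rw [h2] at h1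
    norm_num at h1
  set g : Adm Ω → bergman Ω := fun γ => ((‖e γ‖⁻¹ : ℝ) : ℂ) • e γ with hg
  have hgo : Orthonormal ℂ g := by
    constructor
    · intro γ
      rw [hg]
      simp only
      rw [norm_smul, Complex.norm_real, Real.norm_of_nonneg (by positivity),
        inv_mul_cancel₀ (hepos γ).ne']
    · intro γ γ' hγ
      rw [hg]
      simp only
      rw [Submodule.coe_inner, Submodule.coe_smul, Submodule.coe_smul, inner_smul_left,
        inner_smul_right, ← Submodule.coe_inner, inner_mon hΩ hR (fun h => hγ (Subtype.ext h)) _ _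
        (he γ) (he γ'), mul_zero, mul_zero]
  have hTg : ∀ γ, ‖T (g γ)‖ ^ 2 = ‖T (e γ)‖ ^ 2 / ‖e γ‖ ^ 2 := by
    intro γ
    rw [hg]
    simp only
    rw [map_smul, norm_smul, Complex.norm_real, Real.norm_of_nonneg (by positivity), mul_pow,
      inv_pow]
    ring
  obtain ⟨ι, b, hbo, hbd, hbs⟩ := hHS
  set B : ℝ := ∑' i, ‖T (b i)‖ ^ 2 with hB
  obtain ⟨Q, hQ⟩ := exists_nat_gt (B / δ)
  rw [div_lt_iff₀ hδ] at hQ
  have h1 := hs_bound b hbo hbd T hbs g hgo ((Finset.range Q).biUnion S)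
  rw [Finset.sum_biUnion (fun q _ q' _ h => hdisj q q' h)] at h1
  have h2 : (Q : ℝ) * δ ≤ ∑ q ∈ Finset.range Q, ∑ γ ∈ S q, ‖T (g γ)‖ ^ 2 := by
    calc (Q : ℝ) * δ = ∑ _q ∈ Finset.range Q, δ := by
          rw [Finset.sum_const, Finset.card_range, nsmul_eq_mul]
      _ ≤ _ := by
          refine Finset.sum_le_sum fun q _ => ?_
          simp_rw [hTg]
          exact hS2 q
  linarith

theorem abstract_main (n : ℕ) (hn : 2 ≤ n) (Ω : Set (Fin n → ℂ)) (hΩ : IsOpen Ω) (hcon : IsConnected Ω)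
    (hb : Bornology.IsBounded Ω) (hR : IsReinhardt Ω) (f : (Fin n → ℂ) → ℂ)
    (hf : DifferentiableOn ℂ f Ω) (T : bergman Ω →L[ℂ] L2 Ω) (hT : ExtendsHankel Ω f T)
    (hD : Dense {g : bergman Ω | InDom Ω f (g : L2 Ω)}) (hHS : IsHSab Ω T) :
    T = 0 ∧ ∃ c : ℂ, ∀ z ∈ Ω, f z = c := by
  have hR' := rein_of Ω hR
  have hne : Ωᶜ.Nonempty := by
    rw [Set.nonempty_compl]
    intro h
    rw [h] at hb
    have : Nonempty (Fin n) := ⟨⟨0, by omega⟩⟩
    exact NormedSpace.unbounded_univ ℂ (Fin n → ℂ) hb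
  -- the constant
  obtain ⟨c, hc⟩ := comp_eq hΩ hcon hR' hf 0
  have hst : ∀ z ∈ st Ω, f z = c := by
    intro z hz
    have hcontF : Continuous fun t : Tn n => f (rot t z) :=
      hf.continuousOn.comp_continuous (rot_continuous_left z) fun t => hR' t z hz.1
    have h1 := fourier_unique (fun t => f (rot t z)) hcontF (fun κ hκ => by
      obtain ⟨d, hd⟩ := comp_eq hΩ hcon hR' hf κ
      have hd0 := coeff_zero hn hΩ hcon hb hR' hne hf T hT hD hHS κ hκ d hd
      have h2 := comp_st hd z hz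
      rw [hd0, zero_mul] at h2
      exact h2) 0
    simp only [rot_zero] at h1
    have h2 := comp_st hc z hz
    have h3 : mon (0 : Fin n → ℤ) z = 1 := by
      unfold mon
      simp
    rw [h3, mul_one] at h2
    rw [← h2, h1]
    unfold comp
    refine integral_congr_ae (Filter.Eventually.of_forall fun t => ?_)
    simp only
    rw [neg_zero, ch_zero, one_mul]
  have hconst : ∀ z ∈ Ω, f z = c := by
    intro z hz
    by_contra hne'
    have hopen : IsOpen (Ω ∩ f ⁻¹' {c}ᶜ) :=
      hf.continuousOn.isOpen_inter_preimage hΩ isOpen_compl_singleton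
    obtain ⟨q, hq, hqj⟩ := perturb hopen (p := z) ⟨hz, hne'⟩
    exact hq.2 (hst q ⟨hq.1, hqj⟩)
  refine ⟨?_, c, hconst⟩
  -- vanishing of the operator
  have hzero : ∀ g : bergman Ω, InDom Ω f (g : L2 Ω) → T g = 0 := by
    intro g hg
    obtain ⟨h1, h2⟩ := hT g hg
    have h3 : MemLp.toLp _ hg = starRingEnd ℂ c • (g : L2 Ω) := by
      refine Lp.ext ?_
      filter_upwards [hg.coeFn_toLp, Lp.coeFn_smul (starRingEnd ℂ c) (g : L2 Ω),
        ae_restrict_mem hΩ.measurableSet] with z h4 h5 h6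
      rw [h4, h5, Pi.smul_apply, smul_eq_mul, hconst z h6]
    have h4 : T g ∈ bergman Ω := by
      have h5 : T g = starRingEnd ℂ c • (g : L2 Ω) - (MemLp.toLp _ hg - T g) := by
        rw [h3]
        abel
      rw [h5]
      exact Submodule.sub_mem _ (Submodule.smul_mem _ _ g.2) h2
    have h5 : ⟪T g, T g⟫_ℂ = 0 := Submodule.inner_right_of_mem_orthogonal h4 h1
    exact inner_self_eq_zero.1 h5
  have hcl : IsClosed {g : bergman Ω | T g = 0} := isClosed_eq T.continuous continuous_const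
  have hall := hD.closure_eq ▸ closure_minimal (fun g hg => hzero g hg) hcl
  ext1 g
  exact hall (mem_univ g)

end Pool.Agent.R234.HK
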