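import Mathlib
import Pool.Agent.R234.HK.L
import Pool.Agent.R234.HK.Stmt

/-! From the statement in terms of functions to the abstract one. -/

set_option autoImplicit false

open MeasureTheory Metric Set Filter Topology
open scoped ENNReal InnerProductSpace

namespace Pool.Agent.R234.HK

variable {n : ℕ} {Ω : Set (Fin n → ℂ)}

theorem aeEq_iff (hm : MeasurableSet Ω) (F G : (Fin n → ℂ) → ℂ) :
    AeEq Ω F G ↔ F =ᵐ[volume.restrict Ω] G := by
  unfold AeEq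
  exact (ae_restrict_iff' hm).symm

theorem ip_eq {F G : (Fin n → ℂ) → ℂ} (hF : InL2 Ω F) (hG : InL2 Ω G) :
    ip Ω F G = ⟪MemLp.toLp F hF, MemLp.toLp G hG⟫_ℂ := by
  rw [L2.inner_def]
  unfold ip
  refine integral_congr_ae ?_
  filter_upwards [MemLp.coeFn_toLp hF, MemLp.coeFn_toLp hG] with z h1 h2
  rw [h1, h2, RCLike.inner_apply, mul_comm]

theorem nsq_eq {F : (Fin n → ℂ) → ℂ} (hF : InL2 Ω F) :
    nsq Ω F = ‖MemLp.toLp F hF‖ ^ 2 := by
  have h1 := ip_eq hF hF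
  have h2 : ip Ω F F = ((nsq Ω F : ℝ) : ℂ) := by
    unfold ip nsq
    rw [← integral_complex_ofReal]
    refine integral_congr_ae (Filter.Eventually.of_forall fun z => ?_)
    simp only
    rw [Complex.conj_mul', Complex.ofReal_pow]
  rw [← inner_self_eq_norm_sq (𝕜 := ℂ), ← h1, h2]
  exact (Complex.ofReal_re _).symm

/-- the class of a function of the Bergman space -/
noncomputable def cls (G : (Fin n → ℂ) → ℂ) (hG : InA2 Ω G) : bergman Ω :=
  ⟨MemLp.toLp G hG.2, G, hG.1, MemLp.coeFn_toLp hG.2⟩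

theorem cls_coe (G : (Fin n → ℂ) → ℂ) (hG : InA2 Ω G) :
    ((cls G hG : bergman Ω) : L2 Ω) = MemLp.toLp G hG.2 := rfl

theorem norm_cls (G : (Fin n → ℂ) → ℂ) (hG : InA2 Ω G) : ‖cls G hG‖ ^ 2 = nsq Ω G := by
  rw [Submodule.coe_norm, cls_coe, nsq_eq hG.2]

theorem inner_cls (G H : (Fin n → ℂ) → ℂ) (hG : InA2 Ω G) (hH : InA2 Ω H) :
    ⟪cls G hG, cls H hH⟫_ℂ = ip Ω G H := by
  rw [Submodule.coe_inner, cls_coe, cls_coe, ip_eq hG.2 hH.2]

/-- a representative -/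
noncomputable def rep (g : bergman Ω) : (Fin n → ℂ) → ℂ := g.2.choose

theorem rep_ae (g : bergman Ω) : ((g : L2 Ω) : (Fin n → ℂ) → ℂ) =ᵐ[volume.restrict Ω] rep g :=
  g.2.choose_spec.2

theorem rep_in (g : bergman Ω) : InA2 Ω (rep g) :=
  ⟨g.2.choose_spec.1, (memLp_congr_ae (rep_ae g)).1 (Lp.memLp (g : L2 Ω))⟩

theorem cls_rep (g : bergman Ω) : cls (rep g) (rep_in g) = g := by
  apply Subtype.ext
  rw [cls_coe]
  refine Lp.ext ?_
  exact (MemLp.coeFn_toLp _).trans (rep_ae g).symm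

theorem rep_cls (G : (Fin n → ℂ) → ℂ) (hG : InA2 Ω G) :
    rep (cls G hG) =ᵐ[volume.restrict Ω] G :=
  (rep_ae _).symm.trans (MemLp.coeFn_toLp hG.2)

section Op

variable {T : ((Fin n → ℂ) → ℂ) → (Fin n → ℂ) → ℂ}

theorem op_zero (hT : IsBoundedOp Ω T) {G : (Fin n → ℂ) → ℂ}
    (hG : InA2 Ω G) (h0 : G =ᵐ[volume.restrict Ω] 0) : T G =ᵐ[volume.restrict Ω] 0 := by
  obtain ⟨h1, h2, C, hC⟩ := hT
  have h3 := hC G hG
  have h4 : nsq Ω G = 0 := by
    rw [nsq_eq hG.2]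
    have : MemLp.toLp G hG.2 = 0 := (MemLp.toLp_eq_toLp_iff hG.2 (MemLp.zero')).2 h0
    rw [this]
    simp
  rw [h4, mul_zero, nsq_eq (h1 G hG)] at h3
  have h5 : MemLp.toLp (T G) (h1 G hG) = 0 := by
    have : ‖MemLp.toLp (T G) (h1 G hG)‖ = 0 := by
      have := norm_nonneg (MemLp.toLp (T G) (h1 G hG))
      nlinarith
    exact norm_eq_zero.1 this
  exact (MemLp.toLp_eq_toLp_iff (h1 G hG) (MemLp.zero')).1 h5

theorem op_congr (hm : MeasurableSet Ω) (hT : IsBoundedOp Ω T) {G H : (Fin n → ℂ) → ℂ}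
    (hG : InA2 Ω G) (hH : InA2 Ω H) (h0 : G =ᵐ[volume.restrict Ω] H) :
    T G =ᵐ[volume.restrict Ω] T H := by
  have h1 := (aeEq_iff hm _ _).1 (hT.2.1 (-1) G H hG hH)
  have hd : InA2 Ω (fun z => -1 * G z + H z) :=
    ⟨(hG.1.const_mul _).add hH.1, (MemLp.const_mul hG.2 (-1)).add hH.2⟩
  have h2 : (fun z => -1 * G z + H z) =ᵐ[volume.restrict Ω] 0 := by
    filter_upwards [h0] with z hz
    rw [hz]
    simp
  have h3 := op_zero hT hd h2
  filter_upwards [h1, h3] with z h4 h5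
  rw [h4] at h5
  simp only [Pi.zero_apply] at h5
  linear_combination -h5

/-- the operator on classes -/
noncomputable def opc (hm : MeasurableSet Ω) (hT : IsBoundedOp Ω T) : bergman Ω →ₗ[ℂ] L2 Ω where
  toFun g := MemLp.toLp (T (rep g)) (hT.1 _ (rep_in g))
  map_add' g h := by
    refine Lp.ext ?_
    have hs : InA2 Ω (fun z => 1 * rep g z + rep h z) :=
      ⟨((rep_in g).1.const_mul _).add (rep_in h).1,
        (MemLp.const_mul (rep_in g).2 1).add (rep_in h).2⟩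
    have h1 := (aeEq_iff hm _ _).1 (hT.2.1 1 _ _ (rep_in g) (rep_in h))
    have h2 : rep (g + h) =ᵐ[volume.restrict Ω] fun z => 1 * rep g z + rep h z := by
      filter_upwards [rep_ae g, rep_ae h, rep_ae (g + h), Lp.coeFn_add (g : L2 Ω) (h : L2 Ω)]
        with z h3 h4 h5 h6
      rw [← h5, Submodule.coe_add, h6, Pi.add_apply, h3, h4, one_mul]
    have h3 := op_congr hm hT (rep_in (g + h)) hs h2
    filter_upwards [h1, h3, MemLp.coeFn_toLp (hT.1 _ (rep_in (g + h))),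
      Lp.coeFn_add (MemLp.toLp (T (rep g)) (hT.1 _ (rep_in g)))
        (MemLp.toLp (T (rep h)) (hT.1 _ (rep_in h))),
      MemLp.coeFn_toLp (hT.1 _ (rep_in g)), MemLp.coeFn_toLp (hT.1 _ (rep_in h))]
      with z h4 h5 h6 h7 h8 h9
    rw [h6, h7, Pi.add_apply, h8, h9, h5, h4, one_mul]
  map_smul' c g := by
    refine Lp.ext ?_
    have h0 : InA2 Ω (fun _ : Fin n → ℂ => (0 : ℂ)) :=
      ⟨differentiableOn_const 0, MemLp.zero'⟩
    have hs : InA2 Ω (fun z => c * rep g z + 0) :=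
      ⟨((rep_in g).1.const_mul _).add h0.1,
        (MemLp.const_mul (rep_in g).2 c).add h0.2⟩
    have h1 := (aeEq_iff hm _ _).1 (hT.2.1 c _ _ (rep_in g) h0)
    have h2 : rep (c • g) =ᵐ[volume.restrict Ω] fun z => c * rep g z + 0 := by
      filter_upwards [rep_ae g, rep_ae (c • g), Lp.coeFn_smul c (g : L2 Ω)]
        with z h3 h5 h6
      rw [← h5, Submodule.coe_smul, h6, Pi.smul_apply, h3, smul_eq_mul, add_zero]
    have h3 := op_congr hm hT (rep_in (c • g)) hs h2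
    have h10 := op_zero hT h0 (Filter.Eventually.of_forall fun _ => rfl)
    filter_upwards [h1, h3, MemLp.coeFn_toLp (hT.1 _ (rep_in (c • g))),
      Lp.coeFn_smul c (MemLp.toLp (T (rep g)) (hT.1 _ (rep_in g))),
      MemLp.coeFn_toLp (hT.1 _ (rep_in g)), h10]
      with z h4 h5 h6 h7 h8 h9
    rw [h6, RingHom.id_apply, h7, Pi.smul_apply, h8, h5, h4, h9, smul_eq_mul, Pi.zero_apply,
      add_zero]

theorem opc_coe (hm : MeasurableSet Ω) (hT : IsBoundedOp Ω T) (g : bergman Ω) :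
    opc hm hT g = MemLp.toLp (T (rep g)) (hT.1 _ (rep_in g)) := rfl

theorem opc_cls (hm : MeasurableSet Ω) (hT : IsBoundedOp Ω T) (G : (Fin n → ℂ) → ℂ)
    (hG : InA2 Ω G) : opc hm hT (cls G hG) = MemLp.toLp (T G) (hT.1 _ hG) := by
  rw [opc_coe]
  exact (MemLp.toLp_eq_toLp_iff _ _).2 (op_congr hm hT (rep_in _) hG (rep_cls G hG))

theorem opc_bound (hm : MeasurableSet Ω) (hT : IsBoundedOp Ω T) :
    ∃ C : ℝ, ∀ g : bergman Ω, ‖opc hm hT g‖ ≤ C * ‖g‖ := by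
  obtain ⟨C, hC⟩ := hT.2.2
  refine ⟨Real.sqrt (max C 0), fun g => ?_⟩
  have h1 := hC _ (rep_in g)
  rw [nsq_eq (hT.1 _ (rep_in g)), ← opc_coe hm hT g, ← norm_cls _ (rep_in g), cls_rep] at h1
  refine abs_le_of_sq_le_sq' ?_ (by positivity) |>.2
  rw [mul_pow, Real.sq_sqrt (le_max_right _ _)]
  exact h1.trans (mul_le_mul_of_nonneg_right (le_max_left _ _) (by positivity))

end Op

theorem dense_of_parseval {E : Type*} [NormedAddCommGroup E] [InnerProductSpace ℂ E] {ι : Type*}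
    {b : ι → E} (hb : Orthonormal ℂ b) (hP : ∀ g : E, HasSum (fun i => ‖⟪b i, g⟫_ℂ‖ ^ 2) (‖g‖ ^ 2)) :
    (Submodule.span ℂ (range b)).topologicalClosure = ⊤ := by
  rw [eq_top_iff]
  intro g _
  show g ∈ closure (Submodule.span ℂ (range b) : Set E)
  rw [Metric.mem_closure_iff]
  intro ε hε
  have h1 : ∀ᶠ s : Finset ι in atTop, ‖g‖ ^ 2 - ε ^ 2 < ∑ i ∈ s, ‖⟪b i, g⟫_ℂ‖ ^ 2 :=
    (hP g).eventually (lt_mem_nhds (by nlinarith [sq_pos_of_pos hε]))
  obtain ⟨s, hs⟩ := h1.exists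
  set y : E := ∑ i ∈ s, ⟪b i, g⟫_ℂ • b i with hy
  refine ⟨y, ?_, ?_⟩
  · refine Submodule.sum_mem _ fun i _ => Submodule.smul_mem _ _ (Submodule.subset_span ⟨i, rfl⟩)
  · have h2 : ⟪y, y⟫_ℂ = ∑ i ∈ s, ((‖⟪b i, g⟫_ℂ‖ ^ 2 : ℝ) : ℂ) := by
      rw [hy, hb.inner_sum]
      refine Finset.sum_congr rfl fun i _ => ?_
      rw [Complex.conj_mul', Complex.ofReal_pow]
    have h3 : ⟪y, g⟫_ℂ = ∑ i ∈ s, ((‖⟪b i, g⟫_ℂ‖ ^ 2 : ℝ) : ℂ) := by
      rw [hy, sum_inner]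
      refine Finset.sum_congr rfl fun i _ => ?_
      rw [inner_smul_left, Complex.conj_mul', Complex.ofReal_pow]
    have h4 : ‖g - y‖ ^ 2 = ‖g‖ ^ 2 - ∑ i ∈ s, ‖⟪b i, g⟫_ℂ‖ ^ 2 := by
      have h5 : ⟪y, g - y⟫_ℂ = 0 := by rw [inner_sub_right, h2, h3, sub_self]
      have h6 : ‖g‖ ^ 2 = ‖y‖ ^ 2 + ‖g - y‖ ^ 2 := by
        have h7 : g = y + (g - y) := by abel
        have h8 := norm_add_sq_eq_norm_sq_add_norm_sq_of_inner_eq_zero y (g - y) h5
        rw [← h7] at h8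
        nlinarith [h8]
      have h9 : ‖y‖ ^ 2 = ∑ i ∈ s, ‖⟪b i, g⟫_ℂ‖ ^ 2 := by
        rw [← inner_self_eq_norm_sq (𝕜 := ℂ) y, h2, ← Complex.ofReal_sum]
        exact Complex.ofReal_re _
      linarith
    rw [dist_eq_norm]
    refine abs_lt_of_sq_lt_sq' ?_ hε.le |>.2
    rw [h4]
    linarith

theorem concrete_main (n : ℕ) (hn : 2 ≤ n) (Ω : Set (Fin n → ℂ)) (hΩ : IsOpen Ω)
    (hcon : IsConnected Ω) (hb : Bornology.IsBounded Ω) (hR : IsReinhardt Ω)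
    (f : (Fin n → ℂ) → ℂ) (hf : DifferentiableOn ℂ f Ω)
    (T : ((Fin n → ℂ) → ℂ) → (Fin n → ℂ) → ℂ) (h : IsHilbertSchmidtHankel Ω f T) :
    (∀ G, InA2 Ω G → AeEq Ω (T G) fun _ => 0) ∧ ∃ c : ℂ, ∀ z ∈ Ω, f z = c := by
  obtain ⟨hT, hD, hE, ι, b, ⟨hb1, hb2, hb3, hb4⟩, hs⟩ := h
  have hm := hΩ.measurableSet
  obtain ⟨C, hC⟩ := opc_bound hm hT
  set S : bergman Ω →L[ℂ] L2 Ω := (opc hm hT).mkContinuous C hC with hS
  have hSa : ∀ g, S g = opc hm hT g := fun g => rfl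
  have hmain := abstract_main n hn Ω hΩ hcon hb hR f hf S ?_ ?_ ?_
  · refine ⟨fun G hG => ?_, hmain.2⟩
    have h1 : S (cls G hG) = 0 := by rw [hmain.1]; rfl
    rw [hSa, opc_cls] at h1
    exact (aeEq_iff hm _ _).2 ((MemLp.toLp_eq_toLp_iff (hT.1 G hG) (MemLp.zero')).1 h1)
  · intro g hg
    have hg' : InL2 Ω (fun z => starRingEnd ℂ (f z) * rep g z) := by
      refine (memLp_congr_ae ?_).1 hg
      filter_upwards [rep_ae g] with z hz
      rw [hz]
    obtain ⟨h1, h2, G, hG, h3⟩ := hE _ (rep_in g) hg'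
    constructor
    · rw [Submodule.mem_orthogonal]
      intro u hu
      rw [hSa, opc_coe]
      have h4 := h2 _ (rep_in ⟨u, hu⟩)
      rw [ip_eq (rep_in ⟨u, hu⟩).2 h1, ← cls_coe _ (rep_in ⟨u, hu⟩), cls_rep] at h4
      exact h4
    · refine ⟨G, hG.1, ?_⟩
      filter_upwards [(aeEq_iff hm _ _).1 h3, rep_ae g,
        Lp.coeFn_sub (MemLp.toLp _ hg) (S g), MemLp.coeFn_toLp hg,
        MemLp.coeFn_toLp (hT.1 _ (rep_in g))] with z h4 h5 h6 h7 h8
      rw [h6, Pi.sub_apply, h7, hSa, opc_coe, h8, h5, h4]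
      ring
  · rw [Metric.dense_iff]
    intro g r hr
    obtain ⟨g', h1, h2, h3⟩ := hD _ (rep_in g) (r ^ 2) (by positivity)
    refine ⟨cls g' h1, ?_, ?_⟩
    · rw [mem_ball, dist_comm, dist_eq_norm]
      have h4 : InA2 Ω (fun z => rep g z - g' z) := ⟨(rep_in g).1.sub h1.1, (rep_in g).2.sub h1.2⟩
      have h5 : g - cls g' h1 = cls _ h4 := by
        apply Subtype.ext
        rw [Submodule.coe_sub, cls_coe, cls_coe]
        refine Lp.ext ?_
        filter_upwards [Lp.coeFn_sub (g : L2 Ω) (MemLp.toLp g' h1.2), rep_ae g,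
          MemLp.coeFn_toLp h1.2, MemLp.coeFn_toLp h4.2] with z h6 h7 h8 h9
        rw [h6, Pi.sub_apply, h7, h8, h9]
      rw [h5]
      refine abs_lt_of_sq_lt_sq' ?_ hr.le |>.2
      rw [norm_cls]
      exact h3
    · show MemLp _ 2 (volume.restrict Ω)
      refine (memLp_congr_ae ?_).1 h2
      filter_upwards [MemLp.coeFn_toLp h1.2] with z hz
      rw [cls_coe, hz]
  · have ho : Orthonormal ℂ fun i => cls (b i) (hb1 i) := by
      constructor
      · intro i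
        have h1 := norm_cls (b i) (hb1 i)
        rw [hb2] at h1
        have h2 := norm_nonneg (cls (b i) (hb1 i))
        nlinarith
      · intro i j hij
        rw [inner_cls]
        exact hb3 i j hij
    refine ⟨ι, fun i => cls (b i) (hb1 i), ho, ?_, ?_⟩
    · refine dense_of_parseval ho fun g => ?_
      have h1 := hb4 _ (rep_in g)
      rw [← norm_cls _ (rep_in g), cls_rep] at h1
      have h2 : ∀ i, ip Ω (b i) (rep g) = ⟪cls (b i) (hb1 i), g⟫_ℂ := by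
        intro i
        rw [← inner_cls _ _ (hb1 i) (rep_in g), cls_rep]
      simp_rw [h2] at h1
      exact h1
    · refine hs.congr fun i => ?_
      rw [hSa, opc_cls, nsq_eq (hT.1 _ (hb1 i))]

end Pool.Agent.R234.HK
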